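import Mathlib

/-!
# The size of the coordinates of the test points
-/

set_option autoImplicit false

namespace DH.Size69

/-- The prime with the index `i` (from `0`) is at most `2 ^ (i + 1)` (Bertrand). -/
theorem nth_prime_le (i : ℕ) : Nat.nth Nat.Prime i ≤ 2 ^ (i + 1) := by
  induction i with
  | zero => rw [Nat.nth_prime_zero_eq_two]; norm_num
  | succ i ih =>
    have hp := Nat.prime_nth_prime i
    obtain ⟨q, hq, h1, h2⟩ := Nat.exists_prime_lt_and_le_two_mul _ hp.ne_zero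
    have h3 : i < Nat.count Nat.Prime q :=
      (Nat.lt_nth_iff_count_lt Nat.infinite_setOfPred_prime).2 h1
    have h4 : Nat.nth Nat.Prime (i + 1) ≤ q := by
      calc Nat.nth Nat.Prime (i + 1) ≤ Nat.nth Nat.Prime (Nat.count Nat.Prime q) :=
            Nat.nth_monotone Nat.infinite_setOfPred_prime h3
        _ = q := Nat.nth_count hq
    calc Nat.nth Nat.Prime (i + 1) ≤ q := h4
      _ ≤ 2 * Nat.nth Nat.Prime i := h2
      _ ≤ 2 * 2 ^ (i + 1) := Nat.mul_le_mul_left 2 ih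
      _ = 2 ^ (i + 1 + 1) := by ring

theorem abs_sub_le {a b c : ℕ} (ha : a ≤ c) (hb : b ≤ c) : |((a : ℤ) - (b : ℤ))| ≤ c := by
  rw [abs_le]
  constructor <;> omega

/-- The curve through the points of Ben-Or and Tiwari. -/
theorem curve_le {n S N x : ℕ} (hx : x ≤ N * S) (i : Fin n) :
    |∑ j ∈ Finset.range S, ((-1) ^ (S - 1 - j) * ((S - 1).choose j : ℤ) *
        (Nat.nth Nat.Prime i : ℤ) ^ j) * ∏ l ∈ (Finset.range S).erase j, ((x : ℤ) - (l : ℤ))| ≤
      ((2 ^ (n + 1) * (N + 1) * S : ℕ) : ℤ) ^ S := by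
  rcases Nat.eq_zero_or_pos S with h0 | hS
  · subst h0
    simp
  have hp : Nat.nth Nat.Prime (i : ℕ) ≤ 2 ^ n :=
    (nth_prime_le i).trans (Nat.pow_le_pow_right (by norm_num) i.2)
  have h1 : ∀ j ∈ Finset.range S, |((-1) ^ (S - 1 - j) * ((S - 1).choose j : ℤ) *
      (Nat.nth Nat.Prime i : ℤ) ^ j) * ∏ l ∈ (Finset.range S).erase j, ((x : ℤ) - (l : ℤ))| ≤
      (((S - 1).choose j * (2 ^ n) ^ j * ((N + 1) * S) ^ (S - 1) : ℕ) : ℤ) := by
    intro j hj
    rw [abs_mul, abs_mul, abs_mul, abs_pow, abs_neg, abs_one, one_pow, one_mul, Nat.abs_cast,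
      abs_pow, Nat.abs_cast, Finset.abs_prod]
    push_cast
    refine mul_le_mul ?_ ?_ (Finset.prod_nonneg fun _ _ => abs_nonneg _) (by positivity)
    · refine mul_le_mul_of_nonneg_left ?_ (by positivity)
      exact pow_le_pow_left₀ (by positivity) (by exact_mod_cast hp) j
    · calc ∏ l ∈ (Finset.range S).erase j, |(x : ℤ) - (l : ℤ)|
          ≤ ∏ l ∈ (Finset.range S).erase j, (((N + 1) * S : ℕ) : ℤ) := by
            refine Finset.prod_le_prod (fun _ _ => abs_nonneg _) fun l hl => ?_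
            refine abs_sub_le (hx.trans ?_) ?_
            · exact Nat.mul_le_mul_right S (Nat.le_succ N)
            · have h2 : l < S := Finset.mem_range.1 (Finset.mem_of_mem_erase hl)
              exact h2.le.trans (Nat.le_mul_of_pos_left S (Nat.succ_pos N))
        _ = (((N : ℤ) + 1) * (S : ℤ)) ^ (S - 1) := by
            rw [Finset.prod_const, Finset.card_erase_of_mem hj, Finset.card_range]
            push_cast
            rfl
  refine (Finset.abs_sum_le_sum_abs _ _).trans ((Finset.sum_le_sum h1).trans ?_)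
  rw [← Nat.cast_sum, ← Nat.cast_pow, Nat.cast_le, ← Finset.sum_mul]
  have h3 : ∑ j ∈ Finset.range S, (S - 1).choose j * (2 ^ n) ^ j = (2 ^ n + 1) ^ (S - 1) := by
    rw [add_pow]
    have e : S - 1 + 1 = S := Nat.succ_pred_eq_of_pos hS
    rw [e]
    refine Finset.sum_congr rfl fun j _ => ?_
    rw [one_pow, mul_one, mul_comm]
    rfl
  rw [h3]
  have h4 : 2 ^ n + 1 ≤ 2 ^ (n + 1) := by
    have : 1 ≤ 2 ^ n := Nat.one_le_two_pow
    rw [pow_succ]
    omega
  calc (2 ^ n + 1) ^ (S - 1) * ((N + 1) * S) ^ (S - 1)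
      ≤ (2 ^ (n + 1)) ^ (S - 1) * ((N + 1) * S) ^ (S - 1) :=
        Nat.mul_le_mul_right _ (Nat.pow_le_pow_left h4 _)
    _ = (2 ^ (n + 1) * (N + 1) * S) ^ (S - 1) := by rw [← mul_pow, mul_assoc]
    _ ≤ (2 ^ (n + 1) * (N + 1) * S) ^ S :=
        Nat.pow_le_pow_right (by positivity) (Nat.sub_le _ _)

/-- The seeds. -/
theorem seeds_le {n R N : ℕ} {a w : Fin R → ℕ} (ha : ∀ j, a j ≤ n * N) (hw : ∀ j, w j ≤ N)
    (i : Fin n) :
    |∑ j, (w j : ℤ) * ∏ l ∈ Finset.univ.erase i, ((a j : ℤ) - ((l : Fin n) : ℕ))| ≤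
      ((R * (n * (N + 1)) ^ n : ℕ) : ℤ) := by
  have hn : 0 < n := i.pos
  have h1 : ∀ j ∈ (Finset.univ : Finset (Fin R)),
      |(w j : ℤ) * ∏ l ∈ Finset.univ.erase i, ((a j : ℤ) - ((l : Fin n) : ℕ))| ≤
      (((n * (N + 1)) ^ n : ℕ) : ℤ) := by
    intro j _
    rw [abs_mul, Nat.abs_cast, Finset.abs_prod]
    calc (w j : ℤ) * ∏ l ∈ Finset.univ.erase i, |(a j : ℤ) - ((l : Fin n) : ℕ)|
        ≤ ((n * (N + 1) : ℕ) : ℤ) * ∏ l ∈ (Finset.univ : Finset (Fin n)).erase i,
            ((n * (N + 1) : ℕ) : ℤ) := by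
          refine mul_le_mul ?_ (Finset.prod_le_prod (fun _ _ => abs_nonneg _) fun l _ => ?_)
            (Finset.prod_nonneg fun _ _ => abs_nonneg _) (by positivity)
          · have h2 : w j ≤ n * (N + 1) :=
              (hw j).trans ((Nat.le_succ N).trans (Nat.le_mul_of_pos_left _ hn))
            exact_mod_cast h2
          · refine abs_sub_le ((ha j).trans (Nat.mul_le_mul_left n (Nat.le_succ N))) ?_
            exact l.2.le.trans (Nat.le_mul_of_pos_right n (Nat.succ_pos N))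
      _ = (((n * (N + 1)) ^ n : ℕ) : ℤ) := by
          rw [Finset.prod_const, Finset.card_erase_of_mem (Finset.mem_univ i), Finset.card_univ,
            Fintype.card_fin, ← pow_succ', Nat.sub_add_cancel hn, Nat.cast_pow]
  refine (Finset.abs_sum_le_sum_abs _ _).trans ((Finset.sum_le_sum h1).trans ?_)
  rw [Finset.sum_const, Finset.card_univ, Fintype.card_fin, nsmul_eq_mul]
  push_cast
  exact le_rfl

end DH.Size69
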