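import Pool.Agent.Lib.MP_64d474_lc.DH.Main15

/-!
# Closed bounds for the parameters
-/

set_option autoImplicit false

namespace DH

open SP

/-- One step of the pair (transcendence degree, individual degree). -/
def step (q : ℕ × ℕ) : ℕ × ℕ := ((q.2 + 1) ^ 2 * q.1, 2 * q.2 ^ 3 * (q.2 + 1))

/-- One level. -/
def up (q : ℕ × ℕ) : ℕ × ℕ := step^[q.1] q

theorem step_iter (j : ℕ) : ∀ k e : ℕ, step^[j] (k, e) = (KK j k e, DS j e) := by
  induction j with
  | zero => intro k e; rfl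
  | succ j ih =>
    intro k e
    rw [Function.iterate_succ_apply]
    exact ih _ _

theorem up_eq (k e : ℕ) : up (k, e) = (KK k k e, DS k e) := step_iter k k e

theorem RR_eq (t : ℕ) : ∀ k e : ℕ, RR t k e = ∑ j ∈ Finset.range t, (up^[j] (k, e)).1 := by
  induction t with
  | zero => intro k e; rfl
  | succ t ih =>
    intro k e
    rw [Finset.sum_range_succ']
    simp only [Function.iterate_succ_apply, up_eq, Function.iterate_zero, id_eq]
    rw [← ih]
    rfl

theorem DT_eq (t : ℕ) : ∀ k e : ℕ, DT t k e = (up^[t] (k, e)).2 := by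
  induction t with
  | zero => intro k e; rfl
  | succ t ih =>
    intro k e
    rw [Function.iterate_succ_apply, up_eq, ← ih]
    rfl

theorem one_le_DT (t : ℕ) : ∀ {k e : ℕ}, 1 ≤ e → 1 ≤ DT t k e := by
  induction t with
  | zero => intro k e he; exact he
  | succ t ih => intro k e he; exact ih (one_le_DS k he)

/-- The invariant. -/
def Inv (c s d : ℕ) : Prop := 1 ≤ s ∧ 1 ≤ d ∧ (d + 2) ^ 2 * s ≤ c ^ (2 * d - 1)

theorem three_pow_aux {M : ℕ} (hM : 4 ≤ M) : M * M + 8 ≤ 4 * 3 ^ (M - 1) := by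
  induction M, hM using Nat.le_induction with
  | base => norm_num
  | succ M hM ih =>
    obtain ⟨m, rfl⟩ := Nat.exists_eq_add_of_le hM
    have e1 : 4 + m - 1 = m + 3 := by omega
    have e2 : 4 + m + 1 - 1 = m + 4 := by omega
    rw [e1] at ih
    rw [e2, pow_succ]
    nlinarith

theorem inv_step {c s d : ℕ} (hc : 9 ≤ c) (h : Inv c s d) : Inv c (fs s d) (fd d) := by
  obtain ⟨hs, hd, h⟩ := h
  obtain ⟨M, hM⟩ : ∃ M, M = 2 * d ^ 2 * (d + 1) := ⟨_, rfl⟩
  have hMd : 4 * d ≤ M := by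
    rw [hM]
    nlinarith [Nat.mul_le_mul hd hd, Nat.mul_le_mul (Nat.mul_le_mul hd hd) hd]
  have hfd : fd d = d * M := by rw [fd, hM]; ring
  have h1 : (d + 1) ^ 2 * s + 1 ≤ (d + 2) ^ 2 * s := by nlinarith
  have h2 : fs s d ≤ c ^ ((2 * d - 1) * M) := by
    rw [fs, ← hM, pow_mul]
    exact Nat.pow_le_pow_left (h1.trans h) M
  have h3 : fd d + 2 ≤ 3 ^ (M - 1) := by
    have := three_pow_aux (M := M) (by omega)
    rw [hfd]
    nlinarith
  have h4 : (fd d + 2) ^ 2 ≤ c ^ (M - 1) := by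
    calc (fd d + 2) ^ 2 ≤ (3 ^ (M - 1)) ^ 2 := Nat.pow_le_pow_left h3 2
      _ = 9 ^ (M - 1) := by rw [← pow_mul, mul_comm, pow_mul]; norm_num
      _ ≤ c ^ (M - 1) := Nat.pow_le_pow_left hc _
  refine ⟨?_, hd.trans (le_fd hd), ?_⟩
  · rw [fs]; exact Nat.one_le_pow _ _ (Nat.succ_pos _)
  · calc (fd d + 2) ^ 2 * fs s d ≤ c ^ (M - 1) * c ^ ((2 * d - 1) * M) := Nat.mul_le_mul h4 h2
      _ = c ^ (M - 1 + (2 * d - 1) * M) := (pow_add _ _ _).symm
      _ = c ^ (2 * fd d - 1) := by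
        congr 1
        rw [hfd]
        obtain ⟨d', rfl⟩ := Nat.exists_eq_add_of_le' hd
        obtain ⟨M', rfl⟩ := Nat.exists_eq_add_of_le' (show 1 ≤ M by omega)
        have e1 : 2 * (d' + 1) - 1 = 2 * d' + 1 := by omega
        rw [e1]
        have e2 : 2 * ((d' + 1) * (M' + 1)) - 1 = M' + 1 - 1 + (2 * d' + 1) * (M' + 1) := by
          have : 2 * ((d' + 1) * (M' + 1)) = M' + (2 * d' + 1) * (M' + 1) + 1 := by ring
          rw [this]
          omega
        rw [e2]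

theorem inv_SS {c : ℕ} (hc : 9 ≤ c) (j : ℕ) : ∀ {s d : ℕ}, Inv c s d → Inv c (SS j s d) (DS j d) := by
  induction j with
  | zero => intro s d h; exact h
  | succ j ih => intro s d h; exact ih (inv_step hc h)

theorem inv_ST {c : ℕ} (hc : 9 ≤ c) (t : ℕ) :
    ∀ {s k e : ℕ}, Inv c s e → Inv c (ST t s k e) (DT t k e) := by
  induction t with
  | zero => intro s k e h; exact h
  | succ t ih => intro s k e h; exact ih (inv_SS hc k h)

theorem inv_base {s e : ℕ} (hs : 1 ≤ s) (he : 1 ≤ e) : Inv (9 * s) s e := by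
  refine ⟨hs, he, ?_⟩
  have h1 : ∀ e : ℕ, 1 ≤ e → e + 2 ≤ 3 ^ (2 * e - 1) := by
    intro e he
    induction e, he using Nat.le_induction with
    | base => norm_num
    | succ e he ih =>
      have e1 : 2 * (e + 1) - 1 = 2 * e - 1 + 2 := by omega
      rw [e1, pow_add]
      omega
  have h2 : (e + 2) ^ 2 ≤ 9 ^ (2 * e - 1) := by
    calc (e + 2) ^ 2 ≤ (3 ^ (2 * e - 1)) ^ 2 := Nat.pow_le_pow_left (h1 e he) 2
      _ = 9 ^ (2 * e - 1) := by rw [← pow_mul, mul_comm, pow_mul]; norm_num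
  rw [mul_pow]
  exact Nat.mul_le_mul h2 (Nat.le_self_pow (by omega) s)

/-- The sparsity is polynomial in `s`. -/
theorem ST_le {s k e t : ℕ} (hs : 1 ≤ s) (he : 1 ≤ e) :
    ST t s k e ≤ (9 * s) ^ (2 * DT t k e) := by
  obtain ⟨-, -, h⟩ := inv_ST (c := 9 * s) (by omega) t (k := k) (inv_base hs he)
  refine le_trans ?_ (h.trans (Nat.pow_le_pow_right (by omega) (Nat.sub_le _ _)))
  exact Nat.le_mul_of_pos_left _ (by positivity)

end DH
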