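import Pool.Agent.Lib.MP_64d474_lc.DH.Defs15
import Pool.Agent.Lib.MP_64d474_lc.AK.Sparse48
import Pool.Agent.Lib.MP_64d474_lc.SP.Hit69

/-!
# The levels are closed under translations and expressions
-/

set_option autoImplicit false

namespace DH

open MvPolynomial AK

universe u

theorem lev_tr {F : Type*} [Field F] {n : ℕ} {s k e : ℕ} (i : Fin n) (c : F) (t : ℕ) :
    ∀ {f : MvPolynomial (Fin n) F}, Lev s k e t f →
      Lev ((e + 1) * s) k e t (AK.DH.tr (Pi.single i 1) c f) := by
  induction t with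
  | zero =>
    intro f h
    refine ⟨?_, fun j => (AK.DH.tr_degreeOf i j c f).trans (h.2 j)⟩
    refine (AK.DH.tr_card i c f (h.2 i)).trans ?_
    rw [mul_comm]
    exact Nat.mul_le_mul_left _ h.1
  | succ t ih =>
    intro f h
    exact ⟨alg_map _ (tr_injective _ c) (fun f hf => ih hf) h.1,
      fun j => (AK.DH.tr_degreeOf i j c f).trans (h.2 j)⟩

theorem coeff_degreeOf {F : Type*} [Field F] {n : ℕ} (i j : Fin n) (b : MvPolynomial (Fin n) F)
    (l : ℕ) : ((sh (Pi.single i 1) b).coeff l).degreeOf j ≤ b.degreeOf j := by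
  classical
  rw [MvPolynomial.degreeOf_eq_sup]
  refine Finset.sup_le fun m hm => ?_
  obtain ⟨m', hm', rfl⟩ := Finset.mem_image.1 (sh_coeff_support48 i b l hm)
  refine le_trans ?_ (MvPolynomial.monomial_le_degreeOf j hm')
  rw [Finsupp.tsub_apply]
  exact Nat.sub_le _ _

theorem expr_degreeOf {F : Type*} [Field F] {n : ℕ} {e M : ℕ} (i j : Fin n)
    (BB : Finset (MvPolynomial (Fin n) F)) (h : ∀ b ∈ BB, b.degreeOf j ≤ e)
    (b : MvPolynomial (Fin n) F) (hb : Expr (Pi.single i 1) e M BB b) : b.degreeOf j ≤ M * e := by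
  classical
  obtain ⟨g, p, hg, hp, rfl⟩ := hb
  refine (SP.degreeOf_aeval_le69 _ j e (fun ij => ?_) p).trans (Nat.mul_le_mul_right _ hp)
  exact (coeff_degreeOf i j _ _).trans (h _ (hg _))

/-- The union of translated families. -/
theorem expr_alg {F : Type*} [Field F] [Infinite F] {n : ℕ} {s k e M t : ℕ} (i : Fin n)
    (BB : Finset (MvPolynomial (Fin n) F)) (h : ∀ b ∈ BB, Lev s k e (t + 1) b)
    (b : MvPolynomial (Fin n) F) (hb : Expr (Pi.single i 1) e M BB b) :
    Alg ((e + 1) * (e + 1) * k) (Lev ((e + 1) * s) k e t) b := by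
  classical
  obtain ⟨g, p, hg, hp, rfl⟩ := hb
  obtain ⟨c, lam, hc, hlam⟩ := AK.DH.coeff_eq_sum_tr (F := F) (Pi.single i (1 : F)) e
  choose m T h1 h2 h3 using fun a : Fin (e + 1) => (h _ (hg a)).1
  let ι := Σ a : Fin (e + 1), Fin (e + 1) × Fin (m a)
  let S : ι → MvPolynomial (Fin n) F := fun x =>
    AK.DH.tr (Pi.single i 1) (c x.2.1) (T x.1 x.2.2)
  have hinj : ∀ (a b : Fin (e + 1)) (l l' : Fin (m a)),
      (⟨a, (b, l)⟩ : ι) = ⟨a, (b, l')⟩ → l = l' := fun a b l l' h =>
    (Prod.mk.inj (eq_of_heq (Sigma.mk.inj h).2)).2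
  refine alg_of S (fun x => isProdK_map _ (fun f hf => lev_tr i _ t hf) (h1 x.1 x.2.2)) ?_ ?_
  · intro s' hs'
    -- fibres
    let fib : Fin (e + 1) × Fin (e + 1) → Finset ι := fun ab =>
      s'.filter fun x => (x.1, x.2.1) = ab
    have hcard : s'.card = ∑ ab, (fib ab).card :=
      Finset.card_eq_sum_card_fiberwise (fun x _ => Finset.mem_univ _)
    rw [hcard]
    calc ∑ ab, (fib ab).card ≤ ∑ ab : Fin (e + 1) × Fin (e + 1), k := by
          refine Finset.sum_le_sum fun ab _ => ?_
          obtain ⟨a, b⟩ := ab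
          -- the subfamily of `T a`
          let s1 : Finset (Fin (m a)) := Finset.univ.filter fun l => (⟨a, (b, l)⟩ : ι) ∈ s'
          have hfib : (fib (a, b)).card = s1.card := by
            symm
            refine Finset.card_bij (fun l _ => (⟨a, (b, l)⟩ : ι)) ?_ ?_ ?_
            · intro l hl
              simp only [s1, Finset.mem_filter, Finset.mem_univ, true_and] at hl
              simp only [fib, Finset.mem_filter]
              exact ⟨hl, trivial⟩
            · intro l _ l' _ hll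
              exact hinj a b l l' hll
            · rintro ⟨a', b', l⟩ hx
              simp only [fib, Finset.mem_filter, Prod.mk.injEq] at hx
              obtain ⟨hx, rfl, rfl⟩ := hx
              exact ⟨l, by simpa [s1] using hx, rfl⟩
          rw [hfib]
          refine h2 a s1 ?_
          have hind := hs'.comp (fun l : s1 => (⟨(⟨a, (b, l.1)⟩ : ι),
            (Finset.mem_filter.1 l.2).2⟩ : s')) (by
              intro l l' hll
              exact Subtype.ext (hinj a b l.1 l'.1 (congrArg Subtype.val hll)))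
          have hind' : AlgebraicIndependent F
              ((AK.DH.tr (Pi.single i 1) (c b) : MvPolynomial (Fin n) F →ₐ[F] _) ∘
                fun l : s1 => T a l.1) := hind
          exact (AlgHom.algebraicIndependent_iff _ (tr_injective _ (c b))).1 hind'
      _ = (e + 1) * (e + 1) * k := by
          rw [Finset.sum_const, Finset.card_univ, Fintype.card_prod, Fintype.card_fin, smul_eq_mul]
  · have hmem : ∀ a l, AK.DH.tr (Pi.single i 1) (c l) (g a) ∈ Algebra.adjoin F (Set.range S) := by
      intro a l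
      have h4 : AK.DH.tr (Pi.single i 1) (c l) (g a) ∈
          (Algebra.adjoin F (Set.range (T a))).map (AK.DH.tr (Pi.single i 1) (c l)) :=
        ⟨g a, h3 a, rfl⟩
      rw [AlgHom.map_adjoin] at h4
      refine Algebra.adjoin_mono ?_ h4
      rintro _ ⟨_, ⟨l', rfl⟩, rfl⟩
      exact ⟨⟨a, (l, l')⟩, rfl⟩
    have hco : ∀ ij : Fin (e + 1) × Fin (e + 1),
        (sh (Pi.single i 1) (g ij.1)).coeff ij.2 ∈ Algebra.adjoin F (Set.range S) := by
      rintro ⟨a, l⟩
      have hdeg : (sh (Pi.single i (1 : F)) (g a)).natDegree ≤ e :=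
        (sh_natDegree_degreeOf i _).trans (lev_degreeOf (h _ (hg a)) i)
      rw [hlam (g a) hdeg l]
      refine Subalgebra.sum_mem _ fun j _ => Subalgebra.mul_mem _ ?_ (hmem a j)
      exact Subalgebra.algebraMap_mem _ _
    have : (aeval fun ij : Fin (e + 1) × Fin (e + 1) =>
        (sh (Pi.single i 1) (g ij.1)).coeff (ij.2 : ℕ)) p ∈
        Algebra.adjoin F (Set.range fun ij : Fin (e + 1) × Fin (e + 1) =>
          (sh (Pi.single i (1 : F)) (g ij.1)).coeff (ij.2 : ℕ)) := by
      rw [Algebra.adjoin_range_eq_range_aeval]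
      exact ⟨p, rfl⟩
    refine (Algebra.adjoin_le ?_ : _ ≤ Algebra.adjoin F (Set.range S)) this
    rintro _ ⟨ij, rfl⟩
    exact hco ij

/-- Expressions in members of a level. -/
theorem expr_lev {F : Type*} [Field F] [Infinite F] {n : ℕ} {s k e M : ℕ} (hM : 1 ≤ M) (t : ℕ)
    (i : Fin n) (BB : Finset (MvPolynomial (Fin n) F)) (h : ∀ b ∈ BB, Lev s k e t b)
    (b : MvPolynomial (Fin n) F) (hb : Expr (Pi.single i 1) e M BB b) :
    Lev (((e + 1) * (e + 1) * s + 1) ^ M) ((e + 1) * (e + 1) * k) (M * e) t b := by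
  cases t with
  | zero => exact expr_sparse i BB h b hb
  | succ t =>
    refine ⟨alg_mono le_rfl (fun f hf => lev_mono ?_ ?_ ?_ t hf) (expr_alg i BB h b hb),
      fun j => expr_degreeOf i j BB (fun b hb => lev_degreeOf (h b hb) j) b hb⟩
    · calc (e + 1) * s ≤ (e + 1) * (e + 1) * s + 1 :=
            (Nat.mul_le_mul_right s (Nat.le_mul_of_pos_left _ (Nat.succ_pos e))).trans
              (Nat.le_succ _)
        _ = ((e + 1) * (e + 1) * s + 1) ^ 1 := (pow_one _).symm
        _ ≤ _ := Nat.pow_le_pow_right (Nat.succ_pos _) hM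
    · exact Nat.le_mul_of_pos_left _ (Nat.mul_pos (Nat.succ_pos e) (Nat.succ_pos e))
    · exact Nat.le_mul_of_pos_left _ hM

end DH
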