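import Pool.Agent.Lib.MP_64d474_lc.DH.Main15

/-!
# Any constant depth: the explicit set of test points and its size
-/

set_option autoImplicit false

namespace DH

open MvPolynomial AK SP

universe u

/-! ### Polynomial bounds -/

/-- `f` is bounded by a polynomial. -/
def PB (f : ℕ → ℕ) : Prop := ∃ c : ℕ, 1 ≤ c ∧ ∀ s, f s ≤ (s + 2) ^ c

theorem PB.comp {f g : ℕ → ℕ} (hf : PB f) (hg : PB g) : PB fun s => f (g s) := by
  obtain ⟨a, ha, hfa⟩ := hf
  obtain ⟨b, hb, hgb⟩ := hg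
  refine ⟨(b + 1) * a, Nat.mul_pos (Nat.succ_pos b) ha, fun s => (hfa _).trans ?_⟩
  rw [pow_mul]
  refine Nat.pow_le_pow_left ?_ a
  have h1 : 2 ≤ (s + 2) ^ b := (Nat.le_add_left 2 s).trans (Nat.le_self_pow (by omega) _)
  calc g s + 2 ≤ (s + 2) ^ b + (s + 2) ^ b := Nat.add_le_add (hgb s) h1
    _ = (s + 2) ^ b * 2 := by ring
    _ ≤ (s + 2) ^ b * (s + 2) := Nat.mul_le_mul_left _ (Nat.le_add_left 2 s)
    _ = (s + 2) ^ (b + 1) := (pow_succ _ _).symm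

theorem PB.id : PB fun s => s :=
  ⟨1, le_rfl, fun s => by rw [pow_one]; exact Nat.le_add_right s 2⟩

theorem PB.fs (e : ℕ) : PB fun s => SP.fs s e := by
  refine ⟨(2 * (e + 1) + 1) * (2 * e ^ 2 * (e + 1)) + 1, Nat.succ_pos _, fun s => ?_⟩
  have h0 : (e + 1) ^ 2 ≤ (s + 2) ^ (2 * (e + 1)) := by
    rw [mul_comm 2 (e + 1), pow_mul]
    refine Nat.pow_le_pow_left ?_ 2
    calc e + 1 ≤ 2 ^ (e + 1) := Nat.lt_two_pow_self.le
      _ ≤ (s + 2) ^ (e + 1) := Nat.pow_le_pow_left (Nat.le_add_left 2 s) _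
  have h2 : 1 ≤ (s + 2) ^ (2 * (e + 1)) := Nat.one_le_pow _ _ (Nat.succ_pos _)
  have h1 : (e + 1) ^ 2 * s + 1 ≤ (s + 2) ^ (2 * (e + 1) + 1) := by
    calc (e + 1) ^ 2 * s + 1 ≤ (s + 2) ^ (2 * (e + 1)) * s + (s + 2) ^ (2 * (e + 1)) :=
          Nat.add_le_add (Nat.mul_le_mul_right _ h0) h2
      _ ≤ (s + 2) ^ (2 * (e + 1)) * (s + 2) := by
          generalize (s + 2) ^ (2 * (e + 1)) = u
          nlinarith [Nat.zero_le u]
      _ = (s + 2) ^ (2 * (e + 1) + 1) := (pow_succ _ _).symm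
  unfold SP.fs
  calc ((e + 1) ^ 2 * s + 1) ^ (2 * e ^ 2 * (e + 1))
      ≤ ((s + 2) ^ (2 * (e + 1) + 1)) ^ (2 * e ^ 2 * (e + 1)) := Nat.pow_le_pow_left h1 _
    _ = (s + 2) ^ ((2 * (e + 1) + 1) * (2 * e ^ 2 * (e + 1))) := (pow_mul _ _ _).symm
    _ ≤ (s + 2) ^ ((2 * (e + 1) + 1) * (2 * e ^ 2 * (e + 1)) + 1) :=
        Nat.pow_le_pow_right (Nat.succ_pos _) (Nat.le_succ _)

theorem PB.SS (j : ℕ) : ∀ e : ℕ, PB fun s => SP.SS j s e := by
  induction j with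
  | zero => intro e; exact PB.id
  | succ j ih => intro e; exact (ih (SP.fd e)).comp (PB.fs e)

theorem PB.ST (t : ℕ) : ∀ k e : ℕ, PB fun s => ST t s k e := by
  induction t with
  | zero => intro k e; exact PB.id
  | succ t ih => intro k e; exact (ih (KK k k e) (DS k e)).comp (PB.SS k e)

/-! ### The test points -/

/-- A bound for the sparsity and the degrees. -/
def XX (n t s k e : ℕ) : ℕ := n * ST (t + 1) s k e ^ 2 + DT (t + 1) k e + 1

/-- The least prime number `≥ x`. -/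
noncomputable def pr (x : ℕ) : ℕ := Nat.find (Nat.exists_infinite_primes x)

theorem pr_prime (x : ℕ) : (pr x).Prime := (Nat.find_spec (Nat.exists_infinite_primes x)).2

theorem le_pr (x : ℕ) : x ≤ pr x := (Nat.find_spec (Nat.exists_infinite_primes x)).1

theorem pr_le {x : ℕ} (hx : 0 < x) : pr x ≤ 2 * x := by
  obtain ⟨p, hp, h1, h2⟩ := Nat.exists_prime_lt_and_le_two_mul x hx.ne'
  exact (Nat.find_min' (Nat.exists_infinite_primes x) ⟨h1.le, hp⟩).trans h2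

/-- The test points. -/
noncomputable def tests (n t s k e N : ℕ) : Finset (Fin n → ℤ) :=
  Finset.univ.image fun q : (Fin (N * (pr (XX n t s k e) - 1) + 1) ×
      Fin (N * (XX n t s k e - 1) + 1)) ×
      ((Fin (RR (t + 1) k e) → Fin (N * (n - 1) + 1)) × (Fin (RR (t + 1) k e) → Fin (N + 1))) =>
    dpt n (pr (XX n t s k e)) (XX n t s k e) ((q.1.1 : ℕ) : ℤ) ((q.1.2 : ℕ) : ℤ)
      (fun j => ((q.2.1 j : ℕ) : ℤ)) (fun j => ((q.2.2 j : ℕ) : ℤ))

theorem card_tests (n t s k e N : ℕ) :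
    (tests n t s k e N).card ≤ (N * (pr (XX n t s k e) - 1) + 1) * (N * (XX n t s k e - 1) + 1) *
      ((N * (n - 1) + 1) * (N + 1)) ^ RR (t + 1) k e := by
  refine Finset.card_image_le.trans ?_
  simp [Fintype.card_prod, mul_pow]

/-- Polynomially many tests. -/
theorem card_tests_le (t k e : ℕ) : ∃ c : ℕ, ∀ n s N : ℕ,
    (tests n t s k e N).card ≤ (n + s + N + 2) ^ c := by
  obtain ⟨a, ha, hST⟩ := PB.ST (t + 1) k e
  set E := DT (t + 1) k e with hE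
  set R := RR (t + 1) k e with hR
  -- `XX ≤ Y ^ b`
  refine ⟨2 * (2 * a + E + 5) + 3 * R, fun n s N => (card_tests n t s k e N).trans ?_⟩
  set Y := n + s + N + 2 with hY
  have hY2 : 2 ≤ Y := Nat.le_add_left 2 _
  have hY1 : 1 ≤ Y := by omega
  have hX : XX n t s k e ≤ Y ^ (2 * a + E + 2) := by
    have h1 : ST (t + 1) s k e ^ 2 ≤ Y ^ (2 * a) := by
      rw [mul_comm 2 a, pow_mul]
      refine Nat.pow_le_pow_left ((hST s).trans (Nat.pow_le_pow_left ?_ a)) 2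
      omega
    have h2 : n * ST (t + 1) s k e ^ 2 ≤ Y ^ (2 * a + 1) := by
      rw [pow_succ, mul_comm]
      exact Nat.mul_le_mul h1 (by omega)
    have h3 : E + 1 ≤ Y ^ (E + 1) :=
      (Nat.lt_two_pow_self).le.trans (Nat.pow_le_pow_left hY2 _)
    have h4 : Y ^ (2 * a + 1) ≤ Y ^ (2 * a + E + 1) := Nat.pow_le_pow_right hY1 (by omega)
    have h5 : Y ^ (E + 1) ≤ Y ^ (2 * a + E + 1) := Nat.pow_le_pow_right hY1 (by omega)
    have h6 : XX n t s k e = n * ST (t + 1) s k e ^ 2 + (E + 1) := by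
      rw [XX, hE]; ring
    rw [h6]
    calc n * ST (t + 1) s k e ^ 2 + (E + 1) ≤ Y ^ (2 * a + E + 1) + Y ^ (2 * a + E + 1) :=
          Nat.add_le_add (h2.trans h4) (h3.trans h5)
      _ = Y ^ (2 * a + E + 1) * 2 := by ring
      _ ≤ Y ^ (2 * a + E + 1) * Y := Nat.mul_le_mul_left _ hY2
      _ = Y ^ (2 * a + E + 2) := (pow_succ _ _).symm
  have hX0 : 0 < XX n t s k e := Nat.succ_pos _
  have hN1 : N + 1 ≤ Y := by omega
  have hp : N * (pr (XX n t s k e) - 1) + 1 ≤ Y ^ (2 * a + E + 5) := by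
    have h1 : pr (XX n t s k e) ≤ Y ^ (2 * a + E + 3) := by
      refine (pr_le hX0).trans ?_
      rw [pow_succ, mul_comm]
      exact Nat.mul_le_mul hX hY2
    calc N * (pr (XX n t s k e) - 1) + 1 ≤ N * Y ^ (2 * a + E + 3) + Y ^ (2 * a + E + 3) :=
          Nat.add_le_add (Nat.mul_le_mul_left _ ((Nat.sub_le _ _).trans h1))
            (Nat.one_le_pow _ _ hY1)
      _ = Y ^ (2 * a + E + 3) * (N + 1) := by ring
      _ ≤ Y ^ (2 * a + E + 3) * Y := Nat.mul_le_mul_left _ hN1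
      _ = Y ^ (2 * a + E + 4) := (pow_succ _ _).symm
      _ ≤ Y ^ (2 * a + E + 5) := Nat.pow_le_pow_right hY1 (Nat.le_succ _)
  have hz : N * (XX n t s k e - 1) + 1 ≤ Y ^ (2 * a + E + 5) := by
    calc N * (XX n t s k e - 1) + 1 ≤ N * Y ^ (2 * a + E + 2) + Y ^ (2 * a + E + 2) :=
          Nat.add_le_add (Nat.mul_le_mul_left _ ((Nat.sub_le _ _).trans hX))
            (Nat.one_le_pow _ _ hY1)
      _ = Y ^ (2 * a + E + 2) * (N + 1) := by ring
      _ ≤ Y ^ (2 * a + E + 2) * Y := Nat.mul_le_mul_left _ hN1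
      _ = Y ^ (2 * a + E + 3) := (pow_succ _ _).symm
      _ ≤ Y ^ (2 * a + E + 5) := Nat.pow_le_pow_right hY1 (by omega)
  have hw : (N * (n - 1) + 1) * (N + 1) ≤ Y ^ 3 := by
    have h1 : N * (n - 1) + 1 ≤ Y ^ 2 := by
      have : N * (n - 1) ≤ N * n := Nat.mul_le_mul_left _ (Nat.sub_le _ _)
      rw [hY]
      nlinarith [Nat.zero_le (n * n), Nat.zero_le (N * N), Nat.zero_le (n * N), Nat.zero_le (s * s),
        Nat.zero_le (n * s), Nat.zero_le (N * s)]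
    rw [pow_succ]
    exact Nat.mul_le_mul h1 hN1
  calc _ ≤ Y ^ (2 * a + E + 5) * Y ^ (2 * a + E + 5) * (Y ^ 3) ^ R :=
        Nat.mul_le_mul (Nat.mul_le_mul hp hz) (Nat.pow_le_pow_left hw R)
    _ = Y ^ (2 * (2 * a + E + 5) + 3 * R) := by
        rw [← pow_mul, ← pow_add, ← pow_add]
        congr 1
        ring

theorem map_dpt {R₀ S₀ : Type*} [CommRing R₀] [CommRing S₀] (φ : R₀ →+* S₀) (n p K : ℕ) {R : ℕ}
    (y z : R₀) (a w : Fin R → R₀) (i : Fin n) :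
    φ (dpt n p K y z a w i) = dpt n p K (φ y) (φ z) (fun j => φ (a j)) (fun j => φ (w j)) i := by
  rw [dpt, dpt, map_add, map_ksPt, Pool.Agent.Lib.MP_64d474_lc.S3.map_pt]

/-- The final form. -/
theorem exists_test {F : Type u} [Field F] [CharZero F] {n t s k e N : ℕ} (he : 1 ≤ e)
    (f : MvPolynomial (Fin n) F) (h0 : f ≠ 0) (hf : Alg k (Lev s k e t) f)
    (hN : f.totalDegree ≤ N) :
    ∃ h ∈ tests n t s k e N, eval (fun i => ((h i : ℤ) : F)) f ≠ 0 := by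
  obtain ⟨y, z, a, w, hy, hz, ha, hw, h⟩ := hit_grid (p := pr (XX n t s k e))
    (K := XX n t s k e) (pr_prime _) (le_pr _) he f h0 hf
    (by rw [XX]; omega) (lt_of_lt_of_le (by rw [XX]; omega) (le_pr _)) hN
  refine ⟨_, Finset.mem_image.2 ⟨((⟨y, Nat.lt_succ_of_le hy⟩, ⟨z, Nat.lt_succ_of_le hz⟩),
    (fun j => ⟨a j, Nat.lt_succ_of_le (ha j)⟩, fun j => ⟨w j, Nat.lt_succ_of_le (hw j)⟩)),
    Finset.mem_univ _, rfl⟩, ?_⟩
  have e1 : (fun i => ((dpt n (pr (XX n t s k e)) (XX n t s k e) (y : ℤ) (z : ℤ)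
      (fun j => (a j : ℤ)) (fun j => (w j : ℤ)) i : ℤ) : F)) =
      dpt n (pr (XX n t s k e)) (XX n t s k e) (y : F) (z : F) (fun j => (a j : F))
        (fun j => (w j : F)) := by
    funext i
    have := map_dpt (Int.castRingHom F) n (pr (XX n t s k e)) (XX n t s k e) (y : ℤ) (z : ℤ)
      (fun j => (a j : ℤ)) (fun j => (w j : ℤ)) i
    simp only [eq_intCast, Int.cast_natCast] at this
    exact this
  rw [← e1] at h
  exact h

end DH
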