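import Pool.Agent.Lib.MP_64d474_lc.AK.Defs

/-!
# Translations in one direction: Taylor coefficients from translates, sparsity of translates
-/

set_option autoImplicit false

namespace AK.DH

open Polynomial

/-- The translation `x ↦ x + t u`. -/
noncomputable def tr {F : Type*} [Field F] {σ : Type*} (u : σ → F) (t : F) :
    MvPolynomial σ F →ₐ[F] MvPolynomial σ F :=
  MvPolynomial.aeval fun i => MvPolynomial.X i + MvPolynomial.C (t * u i)

theorem eval_sh {F : Type*} [Field F] {σ : Type*} (u : σ → F) (t : F) (b : MvPolynomial σ F) :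
    (sh u b).eval (MvPolynomial.C t) = tr u t b := by
  have h : ((Polynomial.evalRingHom (MvPolynomial.C t : MvPolynomial σ F)).comp
      (sh u).toRingHom) = (tr u t).toRingHom := by
    refine MvPolynomial.ringHom_ext (fun a => ?_) (fun i => ?_)
    · simp only [RingHom.comp_apply, AlgHom.toRingHom_eq_coe, RingHom.coe_coe]
      rw [← MvPolynomial.algebraMap_eq, AlgHom.commutes, AlgHom.commutes]
      simp [Polynomial.algebraMap_apply]
    · simp only [RingHom.comp_apply, AlgHom.toRingHom_eq_coe, RingHom.coe_coe, sh, tr,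
        MvPolynomial.aeval_X, coe_evalRingHom, eval_add, eval_C, eval_mul, eval_X, map_mul]
  exact RingHom.congr_fun h b

theorem tr_eq_sum {F : Type*} [Field F] {σ : Type*} (u : σ → F) (t : F) {e : ℕ}
    (b : MvPolynomial σ F) (hb : (sh u b).natDegree ≤ e) :
    tr u t b = ∑ k : Fin (e + 1), MvPolynomial.C (t ^ (k : ℕ)) * (sh u b).coeff k := by
  rw [← eval_sh, Polynomial.eval_eq_sum_range' (Nat.lt_succ_of_le hb), Finset.sum_range]
  refine Finset.sum_congr rfl fun k _ => ?_
  rw [map_pow, mul_comm]

/-- (V1) The Taylor coefficients are fixed combinations of `e + 1` translates. -/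
theorem coeff_eq_sum_tr {F : Type*} [Field F] [Infinite F] {σ : Type*} (u : σ → F) (e : ℕ) :
    ∃ (c : Fin (e + 1) → F) (lam : Fin (e + 1) → Fin (e + 1) → F), Function.Injective c ∧
      ∀ b : MvPolynomial σ F, (sh u b).natDegree ≤ e → ∀ k : Fin (e + 1),
        (sh u b).coeff k = ∑ j, MvPolynomial.C (lam k j) * tr u (c j) b := by
  classical
  obtain ⟨c⟩ : Nonempty (Fin (e + 1) ↪ F) :=
    ⟨(Fin.valEmbedding (n := e + 1)).trans (Infinite.natEmbedding F)⟩
  have hdet : IsUnit (Matrix.vandermonde (c : Fin (e + 1) → F)).det :=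
    isUnit_iff_ne_zero.2 (Matrix.det_vandermonde_ne_zero_iff.2 c.injective)
  refine ⟨c, fun k j => (Matrix.vandermonde (c : Fin (e + 1) → F))⁻¹ k j, c.injective,
    fun b hb k => ?_⟩
  simp only [tr_eq_sum u _ b hb, Finset.mul_sum, ← mul_assoc, ← map_mul]
  rw [Finset.sum_comm]
  have h1 := Matrix.nonsing_inv_mul _ hdet
  have h2 : ∀ l : Fin (e + 1), ∑ j, MvPolynomial.C (σ := σ)
      ((Matrix.vandermonde (c : Fin (e + 1) → F))⁻¹ k j * c j ^ (l : ℕ)) * (sh u b).coeff l =
      MvPolynomial.C ((1 : Matrix (Fin (e + 1)) (Fin (e + 1)) F) k l) * (sh u b).coeff l := by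
    intro l
    rw [← Finset.sum_mul, ← map_sum]
    congr 2
    rw [← h1, Matrix.mul_apply]
    rfl
  rw [Finset.sum_congr rfl fun l _ => h2 l, Finset.sum_eq_single k]
  · rw [Matrix.one_apply_eq, map_one, one_mul]
  · intro l _ hl
    rw [Matrix.one_apply_ne hl.symm, map_zero, zero_mul]
  · intro h
    exact absurd (Finset.mem_univ k) h

section sparse

variable {F : Type*} [Field F] {n : ℕ}

theorem tr_monomial (i : Fin n) (t : F) (m : Fin n →₀ ℕ) (a : F) :
    tr (Pi.single i 1) t (MvPolynomial.monomial m a) =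
      ∑ l ∈ Finset.range (m i + 1), MvPolynomial.monomial (m.update i l)
        (a * (t ^ (m i - l) * ((m i).choose l : F))) := by
  classical
  have hmon : ∀ (m' : Fin n →₀ ℕ) (a' : F), MvPolynomial.monomial m' a' =
      MvPolynomial.C a' * (MvPolynomial.X i ^ m' i *
        ∏ j ∈ Finset.univ.erase i, MvPolynomial.X j ^ m' j) := by
    intro m' a'
    rw [MvPolynomial.monomial_eq, Finsupp.prod_fintype _ _ (fun j => pow_zero _),
      Finset.mul_prod_erase Finset.univ (fun j => MvPolynomial.X j ^ m' j) (Finset.mem_univ i)]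
  have h1 : tr (Pi.single i 1) t (MvPolynomial.monomial m a) =
      MvPolynomial.C a * ((MvPolynomial.X i + MvPolynomial.C t) ^ m i *
        ∏ j ∈ Finset.univ.erase i, MvPolynomial.X j ^ m j) := by
    rw [tr, MvPolynomial.aeval_monomial, MvPolynomial.algebraMap_eq,
      Finsupp.prod_fintype _ _ (fun j => pow_zero _),
      ← Finset.mul_prod_erase Finset.univ _ (Finset.mem_univ i)]
    congr 2
    · simp
    · refine Finset.prod_congr rfl fun j hj => ?_
      rw [Pi.single_eq_of_ne (Finset.ne_of_mem_erase hj), mul_zero, map_zero, add_zero]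
  rw [h1, add_pow, Finset.sum_mul, Finset.mul_sum]
  refine Finset.sum_congr rfl fun l _ => ?_
  rw [hmon]
  have h2 : (m.update i l) i = l := by simp
  have h3 : ∀ j ∈ Finset.univ.erase i, MvPolynomial.X (R := F) j ^ (m.update i l) j =
      MvPolynomial.X j ^ m j := by
    intro j hj
    rw [Finsupp.update_apply, if_neg (Finset.ne_of_mem_erase hj)]
  rw [h2, Finset.prod_congr rfl h3, map_mul, map_mul, map_pow, map_natCast]
  ring

theorem tr_support (i : Fin n) (t : F) (b : MvPolynomial (Fin n) F) :
    (tr (Pi.single i 1) t b).support ⊆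
      b.support.biUnion fun m => (Finset.range (m i + 1)).image fun l => m.update i l := by
  classical
  intro m' hm'
  rw [MvPolynomial.as_sum b, map_sum] at hm'
  have h1 := MvPolynomial.support_sum hm'
  rw [Finset.mem_biUnion] at h1
  obtain ⟨m, hm, h2⟩ := h1
  rw [tr_monomial] at h2
  have h3 := MvPolynomial.support_sum h2
  rw [Finset.mem_biUnion] at h3
  obtain ⟨l, hl, h4⟩ := h3
  have h5 := MvPolynomial.support_monomial_subset h4
  rw [Finset.mem_singleton] at h5
  rw [Finset.mem_biUnion]
  exact ⟨m, hm, Finset.mem_image.2 ⟨l, hl, h5.symm⟩⟩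

/-- (V2) A translate in a coordinate direction is at most `e + 1` times less sparse. -/
theorem tr_card (i : Fin n) (t : F) {e : ℕ} (b : MvPolynomial (Fin n) F)
    (hb : b.degreeOf i ≤ e) :
    (tr (Pi.single i 1) t b).support.card ≤ b.support.card * (e + 1) := by
  classical
  refine (Finset.card_le_card (tr_support i t b)).trans ?_
  refine Finset.card_biUnion_le_card_mul _ _ _ fun m hm => ?_
  refine Finset.card_image_le.trans ?_
  rw [Finset.card_range]
  have := MvPolynomial.le_degreeOf_of_mem_support i hm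
  omega

theorem tr_degreeOf (i j : Fin n) (t : F) (b : MvPolynomial (Fin n) F) :
    (tr (Pi.single i 1) t b).degreeOf j ≤ b.degreeOf j := by
  classical
  rw [MvPolynomial.degreeOf_le_iff]
  intro m' hm'
  have h1 := tr_support i t b hm'
  rw [Finset.mem_biUnion] at h1
  obtain ⟨m, hm, h2⟩ := h1
  obtain ⟨l, hl, rfl⟩ := Finset.mem_image.1 h2
  refine le_trans ?_ (MvPolynomial.le_degreeOf_of_mem_support j hm)
  rw [Finsupp.update_apply]
  split_ifs with h
  · subst h
    exact Nat.lt_succ_iff.1 (Finset.mem_range.1 hl)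
  · exact le_rfl

end sparse

end AK.DH
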