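import Pool.Agent.Lib.MP_64d474_lc.AK.Cls35
import Pool.Agent.Lib.MP_64d474_lc.AK.GenDefs
import Pool.Agent.Lib.MP_64d474_lc.DH.Vdm4

/-!
# Products and bounded transcendence degree, iterated: any constant depth
-/

set_option autoImplicit false

namespace DH

open MvPolynomial AK

variable {F : Type*} [Field F] {n : ℕ}

/-- `f = C(T_1, …, T_m)`, where the `T_j` are products of members of `P` and every algebraically
independent subfamily of the `T_j` has at most `k` members. -/
def Alg (k : ℕ) (P : MvPolynomial (Fin n) F → Prop) (f : MvPolynomial (Fin n) F) : Prop :=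
  ∃ (m : ℕ) (T : Fin m → MvPolynomial (Fin n) F), (∀ j, IsProdK P (T j)) ∧
    (∀ s : Finset (Fin m), AlgebraicIndependent F (fun j : s => T j) → s.card ≤ k) ∧
    f ∈ Algebra.adjoin F (Set.range T)

/-- Level `0`: at most `s` monomials and degree at most `e` in each variable. Level `t + 1`: degree
at most `e` in each variable and of the form `C(T_1, …, T_m)`, the `T_j` products of members of
level `t`, of transcendence degree at most `k`. -/
def Lev (s k e : ℕ) : ℕ → MvPolynomial (Fin n) F → Prop
  | 0, f => f.support.card ≤ s ∧ ∀ i, f.degreeOf i ≤ e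
  | t + 1, f => Alg k (Lev s k e t) f ∧ ∀ i, f.degreeOf i ≤ e

theorem alg_mono {k k' : ℕ} {P P' : MvPolynomial (Fin n) F → Prop} (hk : k ≤ k')
    (hP : ∀ f, P f → P' f) {f : MvPolynomial (Fin n) F} (h : Alg k P f) : Alg k' P' f := by
  obtain ⟨m, T, h1, h2, h3⟩ := h
  refine ⟨m, T, fun j => ?_, fun s hs => (h2 s hs).trans hk, h3⟩
  obtain ⟨s, hs, h⟩ := h1 j
  exact ⟨s, fun p hp => hP p (hs p hp), h⟩

theorem lev_mono {s s' k k' e e' : ℕ} (hs : s ≤ s') (hk : k ≤ k') (he : e ≤ e') (t : ℕ) :
    ∀ {f : MvPolynomial (Fin n) F}, Lev s k e t f → Lev s' k' e' t f := by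
  induction t with
  | zero => intro f h; exact ⟨h.1.trans hs, fun i => (h.2 i).trans he⟩
  | succ t ih =>
    intro f h
    exact ⟨alg_mono hk (fun f hf => ih hf) h.1, fun i => (h.2 i).trans he⟩

theorem lev_degreeOf {s k e t : ℕ} {f : MvPolynomial (Fin n) F} (h : Lev s k e t f) (i : Fin n) :
    f.degreeOf i ≤ e := by
  cases t with
  | zero => exact h.2 i
  | succ t => exact h.2 i

/-- `Alg` from a family indexed by any finite type. -/
theorem alg_of {k : ℕ} {P : MvPolynomial (Fin n) F → Prop} {ι : Type*} [Fintype ι]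
    (T : ι → MvPolynomial (Fin n) F) (h1 : ∀ j, IsProdK P (T j))
    (h2 : ∀ s : Finset ι, AlgebraicIndependent F (fun j : s => T j) → s.card ≤ k)
    {f : MvPolynomial (Fin n) F} (h3 : f ∈ Algebra.adjoin F (Set.range T)) : Alg k P f := by
  classical
  let φ := Fintype.equivFin ι
  refine ⟨Fintype.card ι, fun j => T (φ.symm j), fun j => h1 _, fun s hs => ?_, ?_⟩
  · have h := h2 (s.map φ.symm.toEmbedding) (by
      let ψ : (s.map φ.symm.toEmbedding : Finset ι) ≃ s :=
        { toFun := fun j => ⟨φ j, by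
            have := j.2
            rw [Finset.mem_map_equiv] at this
            simpa using this⟩
          invFun := fun j => ⟨φ.symm j, by
            rw [Finset.mem_map_equiv]
            simp⟩
          left_inv := fun j => by simp
          right_inv := fun j => by simp }
      have h := hs.comp ψ ψ.injective
      convert h using 1
      funext j
      simp [ψ])
    simpa using h
  · have : Set.range (fun j => T (φ.symm j)) = Set.range T :=
      φ.symm.surjective.range_comp T
    rw [this]
    exact h3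

/-- The translation `x ↦ x + c u` is injective. -/
theorem tr_injective (u : Fin n → F) (c : F) :
    Function.Injective (AK.DH.tr u c : MvPolynomial (Fin n) F → MvPolynomial (Fin n) F) := by
  have h : (AK.DH.tr u (-c)).comp (AK.DH.tr u c) = AlgHom.id F _ := by
    refine MvPolynomial.algHom_ext fun j => ?_
    have h1 : AK.DH.tr u c (X j) = X j + C (c * u j) := by
      simp only [AK.DH.tr, aeval_X]
    have hC : ∀ a, AK.DH.tr u (-c) (C a : MvPolynomial (Fin n) F) = C a := fun a =>
      (AK.DH.tr u (-c)).commutes a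
    rw [AlgHom.comp_apply, h1, map_add, hC]
    simp only [AK.DH.tr, aeval_X, AlgHom.id_apply]
    rw [neg_mul, map_neg]
    ring
  have h2 : ∀ f, AK.DH.tr u (-c) (AK.DH.tr u c f) = f := fun f => congrArg (fun g => g f) h
  intro f g hfg
  rw [← h2 f, ← h2 g, hfg]

theorem isProdK_map {P P' : MvPolynomial (Fin n) F → Prop}
    (φ : MvPolynomial (Fin n) F →ₐ[F] MvPolynomial (Fin n) F) (h : ∀ f, P f → P' (φ f))
    {T : MvPolynomial (Fin n) F} (hT : IsProdK P T) : IsProdK P' (φ T) := by
  obtain ⟨s, hs, rfl⟩ := hT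
  refine ⟨s.map φ, fun p hp => ?_, map_multiset_prod φ s⟩
  obtain ⟨q, hq, rfl⟩ := Multiset.mem_map.1 hp
  exact h q (hs q hq)

theorem alg_map {k : ℕ} {P P' : MvPolynomial (Fin n) F → Prop}
    (φ : MvPolynomial (Fin n) F →ₐ[F] MvPolynomial (Fin n) F) (hφ : Function.Injective φ)
    (h : ∀ f, P f → P' (φ f)) {f : MvPolynomial (Fin n) F} (hf : Alg k P f) : Alg k P' (φ f) := by
  obtain ⟨m, T, h1, h2, h3⟩ := hf
  refine ⟨m, fun j => φ (T j), fun j => isProdK_map φ h (h1 j), fun s hs => h2 s ?_, ?_⟩
  · exact (AlgHom.algebraicIndependent_iff φ hφ).1 hs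
  · have : Set.range (fun j => φ (T j)) = φ '' Set.range T := by
      rw [← Set.range_comp]; rfl
    rw [this, ← AlgHom.map_adjoin]
    exact ⟨f, h3, rfl⟩

end DH
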