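import Mathlib
import Pool.Agent.Lib.MP_64d474_lc.S3.Hit35b
import Pool.Agent.Lib.MP_64d474_lc.SP.Hit69

/-!
# Seeds and grid for the map `ksPt n p K y z + pt a w`
-/

set_option autoImplicit false

namespace DH

open MvPolynomial Pool.Agent.Lib.MP_64d474_lc.S3 SP

/-- The point of the map with the seeds `y`, `z` and `R` pairs of seeds `a_j`, `w_j`. -/
def dpt {R₀ : Type*} [CommRing R₀] (n p K : ℕ) {R : ℕ} (y z : R₀) (a w : Fin R → R₀)
    (i : Fin n) : R₀ :=
  ksPt n p K y z i + pt a w i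

/-- The map as a vector of polynomials in the seeds. -/
noncomputable def dX (F : Type*) [Field F] (n p K R : ℕ) (i : Fin n) :
    MvPolynomial (Fin 2 ⊕ (Fin R ⊕ Fin R)) F :=
  dpt n p K (X (Sum.inl 0)) (X (Sum.inl 1)) (fun j => X (Sum.inr (Sum.inl j)))
    (fun j => X (Sum.inr (Sum.inr j))) i

theorem eval_dX {F : Type*} [Field F] {n p K R : ℕ} (x : Fin 2 ⊕ (Fin R ⊕ Fin R) → F)
    (f : MvPolynomial (Fin n) F) :
    eval x (aeval (dX F n p K R) f) =
      eval (dpt n p K (x (Sum.inl 0)) (x (Sum.inl 1)) (fun j => x (Sum.inr (Sum.inl j)))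
        (fun j => x (Sum.inr (Sum.inr j)))) f := by
  have h1 := MvPolynomial.comp_aeval_apply (dX F n p K R)
    (aeval x : MvPolynomial (Fin 2 ⊕ (Fin R ⊕ Fin R)) F →ₐ[F] F) f
  rw [aeval_eq_eval] at h1
  rw [h1, aeval_eq_eval]
  congr 2
  funext i
  rw [dX, dpt, dpt, map_add]
  have h2 := map_ksPt (eval x : MvPolynomial (Fin 2 ⊕ (Fin R ⊕ Fin R)) F →+* F) n p K
    (X (Sum.inl 0)) (X (Sum.inl 1)) i
  have h3 := map_pt (m := n) (eval x : MvPolynomial (Fin 2 ⊕ (Fin R ⊕ Fin R)) F →+* F)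
    (fun j => X (Sum.inr (Sum.inl j))) (fun j => X (Sum.inr (Sum.inr j))) i
  rw [h2, h3]
  simp only [eval_X]

theorem exists_eval_ne {F σ : Type*} [Field F] [Infinite F] {f : MvPolynomial σ F} (hf : f ≠ 0) :
    ∃ x : σ → F, eval x f ≠ 0 := by
  by_contra hno
  push Not at hno
  exact hf (MvPolynomial.funext fun x => by rw [map_zero]; exact hno x)

/-- Vectors with at most `k` nonzero coordinates are added by `k` more pairs of seeds. -/
theorem exists_append {F : Type*} [Field F] [CharZero F] {n p K R k : ℕ} (I : Finset (Fin n))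
    (hI : I.card ≤ k) (y z : F) (a w : Fin R → F) (v : Fin n → F) (hv : ∀ i, i ∉ I → v i = 0) :
    ∃ a' w' : Fin (R + k) → F, dpt n p K y z a' w' = fun i => dpt n p K y z a w i + v i := by
  obtain ⟨a₁, w₁, h⟩ := exists_seeds I hI v hv
  refine ⟨Fin.append a a₁, Fin.append w w₁, ?_⟩
  funext i
  rw [dpt, dpt, pt_append, congrFun h i, add_assoc]

/-- A common seed for finitely many polynomials. -/
theorem exists_common_seed {F : Type*} [Field F] [Infinite F] {n p K R : ℕ}
    (BB : Finset (MvPolynomial (Fin n) F)) (hBB : ∀ b ∈ BB, aeval (dX F n p K R) b ≠ 0) :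
    ∃ x : Fin 2 ⊕ (Fin R ⊕ Fin R) → F, ∀ b ∈ BB, eval x (aeval (dX F n p K R) b) ≠ 0 := by
  have hprod : (∏ b ∈ BB, aeval (dX F n p K R) b) ≠ 0 := by
    rw [Finset.prod_ne_zero_iff]
    exact hBB
  obtain ⟨x, hx⟩ := exists_eval_ne hprod
  rw [map_prod, Finset.prod_ne_zero_iff] at hx
  exact ⟨x, hx⟩

theorem eval_res {F : Type*} [Field F] {n : ℕ} (I : Finset (Fin n)) (o w : Fin n → F)
    (h : MvPolynomial (Fin n) F) :
    eval w (AK.res I o h) = eval (fun i => o i + if i ∈ I then w i else 0) h := by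
  have h3 := MvPolynomial.comp_aeval_apply
    (fun i : Fin n => (C (o i) + if i ∈ I then X i else 0 : MvPolynomial (Fin n) F))
    (aeval w : MvPolynomial (Fin n) F →ₐ[F] F) h
  rw [aeval_eq_eval] at h3
  rw [AK.res, h3, aeval_eq_eval]
  congr 2
  funext k
  rw [map_add, eval_C]
  congr 1
  split_ifs
  · rw [eval_X]
  · rw [map_zero]

/-- The induction step: the map with `R` pairs of seeds hits the polynomials of `BB`, and `h` does
not vanish on `o + F^I` if they do not vanish at `o`. -/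
theorem hit_of_res {F : Type*} [Field F] [CharZero F] {n p K R k : ℕ} (I : Finset (Fin n))
    (hI : I.card ≤ k) (BB : Finset (MvPolynomial (Fin n) F))
    (hBB : ∀ b ∈ BB, aeval (dX F n p K R) b ≠ 0) (h : MvPolynomial (Fin n) F)
    (ho : ∀ o : Fin n → F, (∀ b ∈ BB, eval o b ≠ 0) → AK.res I o h ≠ 0) :
    aeval (dX F n p K (R + k)) h ≠ 0 := by
  obtain ⟨x, hx⟩ := exists_common_seed BB hBB
  have h1 := ho (dpt n p K (x (Sum.inl 0)) (x (Sum.inl 1)) (fun j => x (Sum.inr (Sum.inl j)))
    (fun j => x (Sum.inr (Sum.inr j)))) (fun b hb => by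
      rw [← eval_dX]
      exact hx b hb)
  obtain ⟨w, hw⟩ := exists_eval_ne h1
  rw [eval_res] at hw
  obtain ⟨a', w', h2⟩ := exists_append (p := p) (K := K) I hI (x (Sum.inl 0)) (x (Sum.inl 1))
    (fun j => x (Sum.inr (Sum.inl j))) (fun j => x (Sum.inr (Sum.inr j)))
    (fun i => if i ∈ I then w i else 0) (fun i hi => if_neg hi)
  intro h0
  apply hw
  rw [← h2]
  have h3 := eval_dX (Sum.elim (fun j : Fin 2 => x (Sum.inl j)) (Sum.elim a' w')) h
    (p := p) (K := K)
  rw [h0, map_zero] at h3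
  exact h3.symm

/-- More seeds do not hurt. -/
theorem aeval_dX_mono {F : Type*} [Field F] [CharZero F] {n p K R R' : ℕ} (hR : R ≤ R')
    (h : MvPolynomial (Fin n) F) (h0 : aeval (dX F n p K R) h ≠ 0) :
    aeval (dX F n p K R') h ≠ 0 := by
  obtain ⟨k, rfl⟩ := Nat.exists_eq_add_of_le hR
  obtain ⟨x, hx⟩ := exists_eval_ne h0
  rw [eval_dX] at hx
  obtain ⟨a', w', h2⟩ := exists_append (k := k) (p := p) (K := K) (∅ : Finset (Fin n))
    (Nat.zero_le k) (x (Sum.inl 0)) (x (Sum.inl 1))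
    (fun j => x (Sum.inr (Sum.inl j))) (fun j => x (Sum.inr (Sum.inr j)))
    (fun _ => 0) (fun _ _ => rfl)
  intro h1
  apply hx
  have h3 := eval_dX (Sum.elim (fun j : Fin 2 => x (Sum.inl j)) (Sum.elim a' w')) h
    (p := p) (K := K)
  rw [h1, map_zero] at h3
  have h4 : dpt n p K (x (Sum.inl 0)) (x (Sum.inl 1)) a' w' =
      dpt n p K (x (Sum.inl 0)) (x (Sum.inl 1)) (fun j => x (Sum.inr (Sum.inl j)))
        (fun j => x (Sum.inr (Sum.inr j))) := by
    rw [h2]
    funext i
    rw [add_zero]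
  rw [← h4]
  exact h3.symm

/-- The Klivans-Spielman part alone. -/
theorem aeval_dX_of_ks {F : Type*} [Field F] [CharZero F] {n p K R : ℕ}
    (b : MvPolynomial (Fin n) F) (h0 : aeval (ks F n p K) b ≠ 0) :
    aeval (dX F n p K R) b ≠ 0 := by
  refine aeval_dX_mono (Nat.zero_le R) b ?_
  obtain ⟨x, hx⟩ := exists_eval_ne h0
  rw [eval_ks] at hx
  intro h1
  apply hx
  have h3 := eval_dX (Sum.elim x (Sum.elim (Fin.elim0 : Fin 0 → F) Fin.elim0)) b
    (p := p) (K := K)
  rw [h1, map_zero] at h3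
  have h4 : (fun i => ksPt n p K (x 0) (x 1) i) = dpt n p K (x 0) (x 1)
      (fun j : Fin 0 => (Sum.elim x (Sum.elim (Fin.elim0 : Fin 0 → F) Fin.elim0))
        (Sum.inr (Sum.inl j)))
      (fun j : Fin 0 => (Sum.elim x (Sum.elim (Fin.elim0 : Fin 0 → F) Fin.elim0))
        (Sum.inr (Sum.inr j))) := by
    funext i
    simp [dpt, pt]
  rw [h4]
  exact h3.symm

/-! ### Degrees and the grid -/

theorem degreeOf_pt {F σ : Type*} [Field F] [DecidableEq σ] {n R : ℕ} (a w : Fin R → σ) (c : σ)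
    (A B : ℕ) (hA : ∀ j, (if c = a j then 1 else 0) ≤ A) (hB : ∀ j, (if c = w j then 1 else 0) ≤ B)
    (i : Fin n) :
    (pt (fun j => (X (a j) : MvPolynomial σ F)) (fun j => X (w j)) i).degreeOf c ≤
      B + (n - 1) * A := by
  rw [pt]
  refine (degreeOf_sum_le _ _ _).trans (Finset.sup_le fun j _ => ?_)
  refine (degreeOf_mul_le _ _ _).trans (add_le_add ?_ ?_)
  · rw [degreeOf_X]
    exact hB j
  · refine (degreeOf_prod_le _ _ _).trans ?_
    calc _ ≤ ∑ l ∈ Finset.univ.erase i, A := by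
          refine Finset.sum_le_sum fun l _ => ?_
          rw [← map_natCast (C : F →+* MvPolynomial σ F)]
          refine (degreeOf_sub_le _ _ _).trans ?_
          rw [degreeOf_X, degreeOf_C]
          simpa using hA j
      _ = (n - 1) * A := by
          rw [Finset.sum_const, Finset.card_erase_of_mem (Finset.mem_univ i), Finset.card_univ,
            Fintype.card_fin, smul_eq_mul]

theorem degreeOf_dX_y {F : Type*} [Field F] {n p K R : ℕ} (hp : 0 < p) (i : Fin n) :
    (dX F n p K R i).degreeOf (Sum.inl 0) ≤ p - 1 := by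
  classical
  rw [dX, dpt]
  refine (degreeOf_add_le _ _ _).trans (max_le ?_ ?_)
  · refine (degreeOf_ksPt hp _ _ _ i).trans ?_
    simp
  · refine (degreeOf_pt _ _ _ 0 0 (fun j => by simp) (fun j => by simp) i).trans ?_
    simp

theorem degreeOf_dX_z {F : Type*} [Field F] {n p K R : ℕ} (hp : 0 < p) (i : Fin n) :
    (dX F n p K R i).degreeOf (Sum.inl 1) ≤ K - 1 := by
  classical
  rw [dX, dpt]
  refine (degreeOf_add_le _ _ _).trans (max_le ?_ ?_)
  · refine (degreeOf_ksPt hp _ _ _ i).trans ?_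
    simp
  · refine (degreeOf_pt _ _ _ 0 0 (fun j => by simp) (fun j => by simp) i).trans ?_
    simp

theorem degreeOf_dX_a {F : Type*} [Field F] {n p K R : ℕ} (hp : 0 < p) (i : Fin n) (j : Fin R) :
    (dX F n p K R i).degreeOf (Sum.inr (Sum.inl j)) ≤ n - 1 := by
  classical
  rw [dX, dpt]
  refine (degreeOf_add_le _ _ _).trans (max_le ?_ ?_)
  · refine (degreeOf_ksPt hp _ _ _ i).trans ?_
    simp
  · refine (degreeOf_pt _ _ _ 1 0 (fun j => by split_ifs <;> simp) (fun j => by simp) i).trans ?_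
    simp

theorem degreeOf_dX_w {F : Type*} [Field F] {n p K R : ℕ} (hp : 0 < p) (i : Fin n) (j : Fin R) :
    (dX F n p K R i).degreeOf (Sum.inr (Sum.inr j)) ≤ 1 := by
  classical
  rw [dX, dpt]
  refine (degreeOf_add_le _ _ _).trans (max_le ?_ ?_)
  · refine (degreeOf_ksPt hp _ _ _ i).trans ?_
    simp
  · refine (degreeOf_pt _ _ _ 0 1 (fun j => by simp) (fun j => by split_ifs <;> simp) i).trans ?_
    simp

/-- If `h` is nonzero on the map, it is nonzero at a point whose seeds are small natural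
numbers. -/
theorem grid {F : Type*} [Field F] [CharZero F] {n p K R N : ℕ} (hp : 0 < p)
    (h : MvPolynomial (Fin n) F) (hN : h.totalDegree ≤ N) (h0 : aeval (dX F n p K R) h ≠ 0) :
    ∃ (y z : ℕ) (a w : Fin R → ℕ), y ≤ N * (p - 1) ∧ z ≤ N * (K - 1) ∧
      (∀ j, a j ≤ N * (n - 1)) ∧ (∀ j, w j ≤ N) ∧
      eval (dpt n p K (y : F) (z : F) (fun j => (a j : F)) (fun j => (w j : F))) h ≠ 0 := by
  classical
  by_contra hno
  push Not at hno
  apply h0
  refine eq_zero_of_eval_zero_at_prod_finset (aeval (dX F n p K R) h)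
    (Sum.elim (fun j => if j = 0 then
        (Finset.range (N * (p - 1) + 1)).image (fun a : ℕ => (a : F)) else
        (Finset.range (N * (K - 1) + 1)).image (fun a : ℕ => (a : F)))
      (Sum.elim (fun _ => (Finset.range (N * (n - 1) + 1)).image (fun a : ℕ => (a : F)))
        (fun _ => (Finset.range (N + 1)).image (fun a : ℕ => (a : F))))) ?_ ?_
  · rintro (j | j | j)
    · simp only [Sum.elim_inl]
      fin_cases j
      · simp only [Fin.zero_eta, if_true]
        rw [Finset.card_image_of_injective _ Nat.cast_injective, Finset.card_range]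
        exact Nat.lt_succ_of_le ((degreeOf_aeval_le _ _ _ (fun i => degreeOf_dX_y hp i) h).trans
          (Nat.mul_le_mul_right _ hN))
      · simp only [Fin.mk_one, one_ne_zero, if_false]
        rw [Finset.card_image_of_injective _ Nat.cast_injective, Finset.card_range]
        exact Nat.lt_succ_of_le ((degreeOf_aeval_le _ _ _ (fun i => degreeOf_dX_z hp i) h).trans
          (Nat.mul_le_mul_right _ hN))
    · simp only [Sum.elim_inl, Sum.elim_inr]
      rw [Finset.card_image_of_injective _ Nat.cast_injective, Finset.card_range]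
      exact Nat.lt_succ_of_le ((degreeOf_aeval_le _ _ _ (fun i => degreeOf_dX_a hp i j) h).trans
        (Nat.mul_le_mul_right _ hN))
    · simp only [Sum.elim_inr]
      rw [Finset.card_image_of_injective _ Nat.cast_injective, Finset.card_range]
      refine Nat.lt_succ_of_le ((degreeOf_aeval_le _ _ 1 (fun i => degreeOf_dX_w hp i j) h).trans ?_)
      rw [mul_one]
      exact hN
  · intro x hx
    obtain ⟨y, hy1, hy2⟩ : ∃ a : ℕ, a ≤ N * (p - 1) ∧ (a : F) = x (Sum.inl 0) := by
      have := hx (Sum.inl 0)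
      simp only [Sum.elim_inl, if_true, Finset.mem_image, Finset.mem_range] at this
      obtain ⟨a, ha, ha2⟩ := this
      exact ⟨a, by omega, ha2⟩
    obtain ⟨z, hz1, hz2⟩ : ∃ a : ℕ, a ≤ N * (K - 1) ∧ (a : F) = x (Sum.inl 1) := by
      have := hx (Sum.inl 1)
      simp only [Sum.elim_inl, one_ne_zero, if_false, Finset.mem_image, Finset.mem_range] at this
      obtain ⟨a, ha, ha2⟩ := this
      exact ⟨a, by omega, ha2⟩
    have ha : ∀ j : Fin R, ∃ a : ℕ, a ≤ N * (n - 1) ∧ (a : F) = x (Sum.inr (Sum.inl j)) := by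
      intro j
      have := hx (Sum.inr (Sum.inl j))
      simp only [Sum.elim_inl, Sum.elim_inr, Finset.mem_image, Finset.mem_range] at this
      obtain ⟨a, ha, ha2⟩ := this
      exact ⟨a, by omega, ha2⟩
    have hw : ∀ j : Fin R, ∃ a : ℕ, a ≤ N ∧ (a : F) = x (Sum.inr (Sum.inr j)) := by
      intro j
      have := hx (Sum.inr (Sum.inr j))
      simp only [Sum.elim_inr, Finset.mem_image, Finset.mem_range] at this
      obtain ⟨a, ha, ha2⟩ := this
      exact ⟨a, by omega, ha2⟩
    choose a ha1 ha2 using ha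
    choose w hw1 hw2 using hw
    have h1 := hno y z a w hy1 hz1 ha1 hw1
    rw [eval_dX, ← hy2, ← hz2]
    have e1 : (fun j => x (Sum.inr (Sum.inl j))) = fun j => ((a j : ℕ) : F) :=
      funext fun j => (ha2 j).symm
    have e2 : (fun j => x (Sum.inr (Sum.inr j))) = fun j => ((w j : ℕ) : F) :=
      funext fun j => (hw2 j).symm
    rw [e1, e2]
    exact h1

end DH
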