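import Pool.Agent.Lib.MP_64d474_lc.DH.Clos15
import Pool.Agent.Lib.MP_64d474_lc.DH.Grid35
import Pool.Agent.Lib.MP_64d474_lc.AK.SG2
import Pool.Agent.Lib.MP_64d474_lc.SP.Main35

/-!
# Any constant depth: the main theorem
-/

set_option autoImplicit false

namespace DH

open MvPolynomial AK SP

universe u

/-- The transcendence degree after `j` steps. -/
def KK : ℕ → ℕ → ℕ → ℕ
  | 0, k, _ => k
  | j + 1, k, e => KK j ((e + 1) ^ 2 * k) (fd e)

theorem KK_succ (j : ℕ) : ∀ k e : ℕ, KK (j + 1) k e = (DS j e + 1) ^ 2 * KK j k e := by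
  induction j with
  | zero => intro k e; rfl
  | succ j ih => intro k e; rw [KK, ih, KK, DS]

/-- The number of pairs of seeds for level `t`. -/
def RR : ℕ → ℕ → ℕ → ℕ
  | 0, _, _ => 0
  | t + 1, k, e => RR t (KK k k e) (DS k e) + k

/-- The sparsity at the bottom for level `t`. -/
def ST : ℕ → ℕ → ℕ → ℕ → ℕ
  | 0, s, _, _ => s
  | t + 1, s, k, e => ST t (SS k s e) (KK k k e) (DS k e)

/-- The individual degree at the bottom for level `t`. -/
def DT : ℕ → ℕ → ℕ → ℕ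
  | 0, _, e => e
  | t + 1, k, e => DT t (KK k k e) (DS k e)

/-- The step for the levels. -/
theorem stepK_lev {F : Type u} [Field F] [Infinite F] {n s k e : ℕ} (he : 1 ≤ e) (t : ℕ)
    (i : Fin n) :
    StepK (Lev (F := F) s k e t) (Lev (fs s e) ((e + 1) ^ 2 * k) (fd e) t)
      (Pi.single i (1 : F)) := by
  intro BB hBB
  obtain ⟨BB', h1, h2⟩ := step_gen he (Pi.single i (1 : F)) BB (fun b hb => (hBB b hb).1)
    (fun b hb => (sh_natDegree_degreeOf i b).trans (lev_degreeOf (hBB b hb).2 i))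
  refine ⟨BB', fun b hb => ⟨(h1 b hb).1, ?_⟩, ?_⟩
  · have hM : 1 ≤ 2 * e ^ 2 * (e + 1) := Nat.mul_pos (Nat.mul_pos (by norm_num) (Nat.pow_pos he))
      (Nat.succ_pos e)
    have h3 := expr_lev hM t i BB (fun b hb => (hBB b hb).2) b (h1 b hb).2
    have e1 : ((e + 1) * (e + 1) * s + 1) ^ (2 * e ^ 2 * (e + 1)) = fs s e := by
      rw [fs]
      congr 1
      ring
    have e2 : (e + 1) * (e + 1) * k = (e + 1) ^ 2 * k := by ring
    have e3 : 2 * e ^ 2 * (e + 1) * e = fd e := by rw [fd]; ring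
    rw [e1, e2, e3] at h3
    exact h3
  · intro L _ _ _ Γ _ v hv hnt x x' hx hbb z hz
    refine h2 L Γ v hv ?_ x x' hx hbb z hz
    obtain ⟨a, ha, hva⟩ := hnt
    rcases lt_or_gt_of_ne hva with h | h
    · exact ⟨a, (v.ne_zero_iff).2 ha, h⟩
    · refine ⟨a⁻¹, (v.ne_zero_iff).2 (inv_ne_zero ha), ?_⟩
      rw [map_inv₀]
      exact inv_lt_one_of_one_lt₀ h

/-- The finitely many conditions on the base point. -/
theorem res_alg {F : Type u} [Field F] [Infinite F] {n s k e t : ℕ} (he : 1 ≤ e)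
    (f : MvPolynomial (Fin n) F) (h0 : f ≠ 0) (hf : Alg k (Lev s k e t) f) :
    ∃ I : Finset (Fin n), I.card ≤ k ∧ ∃ BB : Finset (MvPolynomial (Fin n) F),
      (∀ b ∈ BB, b ≠ 0 ∧ Lev (SS k s e) (KK k k e) (DS k e) t b) ∧
      ∀ o : Fin n → F, (∀ b ∈ BB, eval o b ≠ 0) → res I o f ≠ 0 := by
  obtain ⟨m, T, h1, h2, h3⟩ := hf
  refine nonzeroK (fun j => Lev (SS j s e) (KK j k e) (DS j e) t) (fun j i => ?_) (fun j b hb => ?_)
    (fun t ht => exists_val t ht) (fun T hT => exists_split T hT)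
    (fun v hv _ t h => indep_of_val v hv t h) T h1 h2 f h3 h0
  · show StepK (Lev (SS j s e) (KK j k e) (DS j e) t)
      (Lev (SS (j + 1) s e) (KK (j + 1) k e) (DS (j + 1) e) t) (Pi.single i 1)
    rw [SS_succ, KK_succ, DS_succ]
    exact stepK_lev (one_le_DS j he) t i
  · show Lev (SS (j + 1) s e) (KK (j + 1) k e) (DS (j + 1) e) t b
    rw [SS_succ, KK_succ, DS_succ]
    exact lev_mono (le_fs (one_le_DS j he)) (Nat.le_mul_of_pos_left _ (Nat.pow_pos (Nat.succ_pos _)))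
      (le_fd (one_le_DS j he)) t hb

theorem hit_step {F : Type u} [Field F] [CharZero F] {n p K : ℕ} (t : ℕ)
    (ih : ∀ (s k e : ℕ), 1 ≤ e → ∀ b : MvPolynomial (Fin n) F, b ≠ 0 → Lev s k e t b →
      n * ST t s k e ^ 2 < K → DT t k e < p → aeval (dX F n p K (RR t k e)) b ≠ 0)
    (s k e : ℕ) (he : 1 ≤ e) (f : MvPolynomial (Fin n) F) (h0 : f ≠ 0)
    (hf : Alg k (Lev s k e t) f) (hK : n * ST (t + 1) s k e ^ 2 < K) (hd : DT (t + 1) k e < p) :
    aeval (dX F n p K (RR (t + 1) k e)) f ≠ 0 := by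
  obtain ⟨I, hI, BB, hBB, hres⟩ := res_alg he f h0 hf
  exact hit_of_res I hI BB (fun b hb => ih _ _ _ (one_le_DS k he) b (hBB b hb).1 (hBB b hb).2 hK hd)
    f hres

theorem hit_lev {F : Type u} [Field F] [CharZero F] {n p K : ℕ} (hp : p.Prime) (hKp : K ≤ p)
    (t : ℕ) : ∀ (s k e : ℕ), 1 ≤ e → ∀ b : MvPolynomial (Fin n) F, b ≠ 0 → Lev s k e t b →
      n * ST t s k e ^ 2 < K → DT t k e < p → aeval (dX F n p K (RR t k e)) b ≠ 0 := by
  induction t with
  | zero =>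
    intro s k e he b h0 hb hK hd
    exact aeval_dX_of_ks b (ks_ne_zero hp hK hKp b h0 hb.1 (fun i => (hb.2 i).trans_lt hd))
  | succ t ih =>
    intro s k e he b h0 hb hK hd
    exact hit_step t ih s k e he b h0 hb.1 hK hd

/-- **Any constant depth.** The map with `RR (t + 1) k e` pairs of seeds hits every nonzero
polynomial `C(T_1, …, T_m)`, where the `T_j` are products of members of level `t`, of
transcendence degree at most `k`. -/
theorem hit_alg {F : Type u} [Field F] [CharZero F] {n p K t s k e : ℕ} (hp : p.Prime)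
    (hKp : K ≤ p) (he : 1 ≤ e) (f : MvPolynomial (Fin n) F) (h0 : f ≠ 0)
    (hf : Alg k (Lev s k e t) f) (hK : n * ST (t + 1) s k e ^ 2 < K) (hd : DT (t + 1) k e < p) :
    aeval (dX F n p K (RR (t + 1) k e)) f ≠ 0 :=
  hit_step t (hit_lev hp hKp t) s k e he f h0 hf hK hd

/-- The explicit test points. -/
theorem hit_grid {F : Type u} [Field F] [CharZero F] {n p K t s k e N : ℕ} (hp : p.Prime)
    (hKp : K ≤ p) (he : 1 ≤ e) (f : MvPolynomial (Fin n) F) (h0 : f ≠ 0)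
    (hf : Alg k (Lev s k e t) f) (hK : n * ST (t + 1) s k e ^ 2 < K) (hd : DT (t + 1) k e < p)
    (hN : f.totalDegree ≤ N) :
    ∃ (y z : ℕ) (a w : Fin (RR (t + 1) k e) → ℕ), y ≤ N * (p - 1) ∧ z ≤ N * (K - 1) ∧
      (∀ j, a j ≤ N * (n - 1)) ∧ (∀ j, w j ≤ N) ∧
      eval (dpt n p K (y : F) (z : F) (fun j => (a j : F)) (fun j => (w j : F))) f ≠ 0 := by
  have h1 := hit_alg hp hKp he f h0 hf hK hd
  obtain ⟨y, z, a, w, hy, hz, ha, hw, h⟩ := grid hp.pos f hN h1
  exact ⟨y, z, a, w, hy, hz, ha, hw, h⟩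

end DH
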