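import Pool.Agent.Lib.MP_64d474_lc.SP.BT69
import Pool.Agent.Lib.MP_64d474_lc.DH.Main15

/-!
# Any constant depth, with the base curve through the points of Ben-Or and Tiwari
-/

set_option autoImplicit false

namespace DHB

open MvPolynomial Pool.Agent.Lib.MP_64d474_lc.S3 AK SP DH

universe u

/-- The point of the map with the seeds `y` and `R` pairs of seeds `a_j`, `w_j`. -/
noncomputable def bpt {R₀ : Type*} [CommRing R₀] (n S : ℕ) {R : ℕ} (y : R₀) (a w : Fin R → R₀)
    (i : Fin n) : R₀ :=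
  btPt S y (i : ℕ) + pt a w i

/-- The map as a vector of polynomials in the seeds. -/
noncomputable def bX (F : Type*) [Field F] (n S R : ℕ) (i : Fin n) :
    MvPolynomial (Unit ⊕ (Fin R ⊕ Fin R)) F :=
  bpt n S (X (Sum.inl ())) (fun j => X (Sum.inr (Sum.inl j))) (fun j => X (Sum.inr (Sum.inr j))) i

theorem eval_bX {F : Type*} [Field F] {n S R : ℕ} (x : Unit ⊕ (Fin R ⊕ Fin R) → F)
    (f : MvPolynomial (Fin n) F) :
    eval x (aeval (bX F n S R) f) =
      eval (bpt n S (x (Sum.inl ())) (fun j => x (Sum.inr (Sum.inl j)))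
        (fun j => x (Sum.inr (Sum.inr j)))) f := by
  have h1 := MvPolynomial.comp_aeval_apply (bX F n S R)
    (aeval x : MvPolynomial (Unit ⊕ (Fin R ⊕ Fin R)) F →ₐ[F] F) f
  rw [aeval_eq_eval] at h1
  rw [h1, aeval_eq_eval]
  congr 2
  funext i
  rw [bX, bpt, bpt, map_add]
  have h2 := map_btPt (eval x : MvPolynomial (Unit ⊕ (Fin R ⊕ Fin R)) F →+* F) S
    (X (Sum.inl ())) (i : ℕ)
  have h3 := map_pt (m := n) (eval x : MvPolynomial (Unit ⊕ (Fin R ⊕ Fin R)) F →+* F)
    (fun j => X (Sum.inr (Sum.inl j))) (fun j => X (Sum.inr (Sum.inr j))) i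
  rw [h2, h3]
  simp only [eval_X]

/-- Vectors with at most `k` nonzero coordinates are added by `k` more pairs of seeds. -/
theorem exists_append {F : Type*} [Field F] [CharZero F] {n S R k : ℕ} (I : Finset (Fin n))
    (hI : I.card ≤ k) (y : F) (a w : Fin R → F) (v : Fin n → F) (hv : ∀ i, i ∉ I → v i = 0) :
    ∃ a' w' : Fin (R + k) → F, bpt n S y a' w' = fun i => bpt n S y a w i + v i := by
  obtain ⟨a₁, w₁, h⟩ := exists_seeds I hI v hv
  refine ⟨Fin.append a a₁, Fin.append w w₁, ?_⟩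
  funext i
  rw [bpt, bpt, pt_append, congrFun h i, add_assoc]

/-- A common seed for finitely many polynomials. -/
theorem exists_common_seed {F : Type*} [Field F] [Infinite F] {n S R : ℕ}
    (BB : Finset (MvPolynomial (Fin n) F)) (hBB : ∀ b ∈ BB, aeval (bX F n S R) b ≠ 0) :
    ∃ x : Unit ⊕ (Fin R ⊕ Fin R) → F, ∀ b ∈ BB, eval x (aeval (bX F n S R) b) ≠ 0 := by
  have hprod : (∏ b ∈ BB, aeval (bX F n S R) b) ≠ 0 := by
    rw [Finset.prod_ne_zero_iff]
    exact hBB
  obtain ⟨x, hx⟩ := exists_eval_ne hprod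
  rw [map_prod, Finset.prod_ne_zero_iff] at hx
  exact ⟨x, hx⟩

/-- The induction step. -/
theorem hit_of_res {F : Type*} [Field F] [CharZero F] {n S R k : ℕ} (I : Finset (Fin n))
    (hI : I.card ≤ k) (BB : Finset (MvPolynomial (Fin n) F))
    (hBB : ∀ b ∈ BB, aeval (bX F n S R) b ≠ 0) (h : MvPolynomial (Fin n) F)
    (ho : ∀ o : Fin n → F, (∀ b ∈ BB, eval o b ≠ 0) → AK.res I o h ≠ 0) :
    aeval (bX F n S (R + k)) h ≠ 0 := by
  obtain ⟨x, hx⟩ := exists_common_seed BB hBB
  have h1 := ho (bpt n S (x (Sum.inl ())) (fun j => x (Sum.inr (Sum.inl j)))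
    (fun j => x (Sum.inr (Sum.inr j)))) (fun b hb => by
      rw [← eval_bX]
      exact hx b hb)
  obtain ⟨w, hw⟩ := exists_eval_ne h1
  rw [eval_res] at hw
  obtain ⟨a', w', h2⟩ := exists_append (S := S) I hI (x (Sum.inl ()))
    (fun j => x (Sum.inr (Sum.inl j))) (fun j => x (Sum.inr (Sum.inr j)))
    (fun i => if i ∈ I then w i else 0) (fun i hi => if_neg hi)
  intro h0
  apply hw
  rw [← h2]
  have h3 := eval_bX (Sum.elim (fun j : Unit => x (Sum.inl j)) (Sum.elim a' w')) h (S := S)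
  rw [h0, map_zero] at h3
  exact h3.symm

/-- The base. -/
theorem aeval_bX_of_sparse {F : Type*} [Field F] [CharZero F] {n S : ℕ}
    (b : MvPolynomial (Fin n) F) (h0 : b ≠ 0) (hs : b.support.card ≤ S) :
    aeval (bX F n S 0) b ≠ 0 := by
  obtain ⟨t, ht⟩ := bt_common {b} (fun b' hb' => by
    rw [Finset.mem_singleton] at hb'
    subst hb'
    exact ⟨h0, hs⟩)
  have hx := ht b (Finset.mem_singleton_self b)
  intro h1
  apply hx
  have h3 := eval_bX (Sum.elim (fun _ : Unit => t) (Sum.elim (Fin.elim0 : Fin 0 → F) Fin.elim0)) b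
    (S := S)
  rw [h1, map_zero] at h3
  have h4 : (fun i : Fin n => btPt S t (i : ℕ)) = bpt n S t
      (fun j : Fin 0 => (Sum.elim (fun _ : Unit => t) (Sum.elim (Fin.elim0 : Fin 0 → F) Fin.elim0))
        (Sum.inr (Sum.inl j)))
      (fun j : Fin 0 => (Sum.elim (fun _ : Unit => t) (Sum.elim (Fin.elim0 : Fin 0 → F) Fin.elim0))
        (Sum.inr (Sum.inr j))) := by
    funext i
    simp [bpt, pt]
  rw [h4]
  exact h3.symm

/-! ### Degrees and the grid -/

theorem degreeOf_bX_y {F : Type*} [Field F] {n S R : ℕ} (i : Fin n) :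
    (bX F n S R i).degreeOf (Sum.inl ()) ≤ S - 1 := by
  classical
  rw [bX, bpt]
  refine (degreeOf_add_le _ _ _).trans (max_le ?_ ?_)
  · refine (degreeOf_btPt _ _ _).trans ?_
    simp
  · refine (degreeOf_pt _ _ _ 0 0 (fun j => by simp) (fun j => by simp) i).trans ?_
    simp

theorem degreeOf_bX_a {F : Type*} [Field F] {n S R : ℕ} (i : Fin n) (j : Fin R) :
    (bX F n S R i).degreeOf (Sum.inr (Sum.inl j)) ≤ n - 1 := by
  classical
  rw [bX, bpt]
  refine (degreeOf_add_le _ _ _).trans (max_le ?_ ?_)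
  · refine (degreeOf_btPt _ _ _).trans ?_
    simp
  · refine (degreeOf_pt _ _ _ 1 0 (fun j => by split_ifs <;> simp) (fun j => by simp) i).trans ?_
    simp

theorem degreeOf_bX_w {F : Type*} [Field F] {n S R : ℕ} (i : Fin n) (j : Fin R) :
    (bX F n S R i).degreeOf (Sum.inr (Sum.inr j)) ≤ 1 := by
  classical
  rw [bX, bpt]
  refine (degreeOf_add_le _ _ _).trans (max_le ?_ ?_)
  · refine (degreeOf_btPt _ _ _).trans ?_
    simp
  · refine (degreeOf_pt _ _ _ 0 1 (fun j => by simp) (fun j => by split_ifs <;> simp) i).trans ?_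
    simp

/-- If `h` is nonzero on the map, it is nonzero at a point whose seeds are small natural
numbers. -/
theorem grid {F : Type*} [Field F] [CharZero F] {n S R N : ℕ}
    (h : MvPolynomial (Fin n) F) (hN : h.totalDegree ≤ N) (h0 : aeval (bX F n S R) h ≠ 0) :
    ∃ (y : ℕ) (a w : Fin R → ℕ), y ≤ N * (S - 1) ∧
      (∀ j, a j ≤ N * (n - 1)) ∧ (∀ j, w j ≤ N) ∧
      eval (bpt n S (y : F) (fun j => (a j : F)) (fun j => (w j : F))) h ≠ 0 := by
  classical
  by_contra hno
  push Not at hno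
  apply h0
  refine eq_zero_of_eval_zero_at_prod_finset (aeval (bX F n S R) h)
    (Sum.elim (fun _ => (Finset.range (N * (S - 1) + 1)).image (fun a : ℕ => (a : F)))
      (Sum.elim (fun _ => (Finset.range (N * (n - 1) + 1)).image (fun a : ℕ => (a : F)))
        (fun _ => (Finset.range (N + 1)).image (fun a : ℕ => (a : F))))) ?_ ?_
  · rintro (j | j | j)
    · simp only [Sum.elim_inl]
      rw [Finset.card_image_of_injective _ Nat.cast_injective, Finset.card_range]
      exact Nat.lt_succ_of_le ((degreeOf_aeval_le _ _ _ (fun i => degreeOf_bX_y i) h).trans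
        (Nat.mul_le_mul_right _ hN))
    · simp only [Sum.elim_inl, Sum.elim_inr]
      rw [Finset.card_image_of_injective _ Nat.cast_injective, Finset.card_range]
      exact Nat.lt_succ_of_le ((degreeOf_aeval_le _ _ _ (fun i => degreeOf_bX_a i j) h).trans
        (Nat.mul_le_mul_right _ hN))
    · simp only [Sum.elim_inr]
      rw [Finset.card_image_of_injective _ Nat.cast_injective, Finset.card_range]
      refine Nat.lt_succ_of_le ((degreeOf_aeval_le _ _ 1 (fun i => degreeOf_bX_w i j) h).trans ?_)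
      rw [mul_one]
      exact hN
  · intro x hx
    obtain ⟨y, hy1, hy2⟩ : ∃ a : ℕ, a ≤ N * (S - 1) ∧ (a : F) = x (Sum.inl ()) := by
      have := hx (Sum.inl ())
      simp only [Sum.elim_inl, Finset.mem_image, Finset.mem_range] at this
      obtain ⟨a, ha, ha2⟩ := this
      exact ⟨a, by omega, ha2⟩
    have ha : ∀ j : Fin R, ∃ a : ℕ, a ≤ N * (n - 1) ∧ (a : F) = x (Sum.inr (Sum.inl j)) := by
      intro j
      have := hx (Sum.inr (Sum.inl j))
      simp only [Sum.elim_inl, Sum.elim_inr, Finset.mem_image, Finset.mem_range] at this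
      obtain ⟨a, ha, ha2⟩ := this
      exact ⟨a, by omega, ha2⟩
    have hw : ∀ j : Fin R, ∃ a : ℕ, a ≤ N ∧ (a : F) = x (Sum.inr (Sum.inr j)) := by
      intro j
      have := hx (Sum.inr (Sum.inr j))
      simp only [Sum.elim_inr, Finset.mem_image, Finset.mem_range] at this
      obtain ⟨a, ha, ha2⟩ := this
      exact ⟨a, by omega, ha2⟩
    choose a ha1 ha2 using ha
    choose w hw1 hw2 using hw
    have h1 := hno y a w hy1 ha1 hw1
    rw [eval_bX, ← hy2]
    have e1 : (fun j => x (Sum.inr (Sum.inl j))) = fun j => ((a j : ℕ) : F) :=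
      funext fun j => (ha2 j).symm
    have e2 : (fun j => x (Sum.inr (Sum.inr j))) = fun j => ((w j : ℕ) : F) :=
      funext fun j => (hw2 j).symm
    rw [e1, e2]
    exact h1

/-! ### The main theorem -/

theorem hit_step {F : Type u} [Field F] [CharZero F] {n S : ℕ} (t : ℕ)
    (ih : ∀ (s k e : ℕ), 1 ≤ e → ∀ b : MvPolynomial (Fin n) F, b ≠ 0 → Lev s k e t b →
      ST t s k e ≤ S → aeval (bX F n S (RR t k e)) b ≠ 0)
    (s k e : ℕ) (he : 1 ≤ e) (f : MvPolynomial (Fin n) F) (h0 : f ≠ 0)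
    (hf : Alg k (Lev s k e t) f) (hS : ST (t + 1) s k e ≤ S) :
    aeval (bX F n S (RR (t + 1) k e)) f ≠ 0 := by
  obtain ⟨I, hI, BB, hBB, hres⟩ := res_alg he f h0 hf
  exact hit_of_res I hI BB (fun b hb => ih _ _ _ (one_le_DS k he) b (hBB b hb).1 (hBB b hb).2 hS)
    f hres

theorem hit_lev {F : Type u} [Field F] [CharZero F] {n S : ℕ}
    (t : ℕ) : ∀ (s k e : ℕ), 1 ≤ e → ∀ b : MvPolynomial (Fin n) F, b ≠ 0 → Lev s k e t b →
      ST t s k e ≤ S → aeval (bX F n S (RR t k e)) b ≠ 0 := by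
  induction t with
  | zero =>
    intro s k e he b h0 hb hS
    exact aeval_bX_of_sparse b h0 (hb.1.trans hS)
  | succ t ih =>
    intro s k e he b h0 hb hS
    exact hit_step t ih s k e he b h0 hb.1 hS

/-- **Any constant depth**: explicit test points. -/
theorem hit_grid {F : Type u} [Field F] [CharZero F] {n S t s k e N : ℕ} (he : 1 ≤ e)
    (hS : ST (t + 1) s k e ≤ S) (f : MvPolynomial (Fin n) F) (h0 : f ≠ 0)
    (hf : Alg k (Lev s k e t) f) (hN : f.totalDegree ≤ N) :
    ∃ (y : ℕ) (a w : Fin (RR (t + 1) k e) → ℕ), y ≤ N * (S - 1) ∧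
      (∀ j, a j ≤ N * (n - 1)) ∧ (∀ j, w j ≤ N) ∧
      eval (bpt n S (y : F) (fun j => (a j : F)) (fun j => (w j : F))) f ≠ 0 :=
  grid f hN (hit_step t (hit_lev t) s k e he f h0 hf hS)

end DHB
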