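import Pool.Agent.Lib.MP_64d474_lc.DH.Bnd15
import Pool.Agent.Lib.MP_64d474_lc.DH.GridB15

/-!
# Any constant depth: explicit test points with one base seed
-/

set_option autoImplicit false

namespace DH.B

open MvPolynomial AK SP

universe u

theorem hit_step {F : Type u} [Field F] [CharZero F] {n S : ℕ} (t : ℕ)
    (ih : ∀ (s k e : ℕ), 1 ≤ e → ∀ b : MvPolynomial (Fin n) F, b ≠ 0 → Lev s k e t b →
      ST t s k e ≤ S → aeval (bX F n S (RR t k e)) b ≠ 0)
    (s k e : ℕ) (he : 1 ≤ e) (f : MvPolynomial (Fin n) F) (h0 : f ≠ 0)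
    (hf : Alg k (Lev s k e t) f) (hS : ST (t + 1) s k e ≤ S) :
    aeval (bX F n S (RR (t + 1) k e)) f ≠ 0 := by
  obtain ⟨I, hI, BB, hBB, hres⟩ := res_alg he f h0 hf
  exact hit_of_res I hI BB (fun b hb => ih _ _ _ (one_le_DS k he) b (hBB b hb).1 (hBB b hb).2 hS)
    f hres

theorem hit_lev {F : Type u} [Field F] [CharZero F] {n S : ℕ}
    (t : ℕ) : ∀ (s k e : ℕ), 1 ≤ e → ∀ b : MvPolynomial (Fin n) F, b ≠ 0 → Lev s k e t b →
      ST t s k e ≤ S → aeval (bX F n S (RR t k e)) b ≠ 0 := by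
  induction t with
  | zero =>
    intro s k e he b h0 hb hS
    exact aeval_bX_of_sparse b h0 (hb.1.trans hS)
  | succ t ih =>
    intro s k e he b h0 hb hS
    exact hit_step t ih s k e he b h0 hb.1 hS

/-- **Any constant depth.** -/
theorem hit_alg {F : Type u} [Field F] [CharZero F] {n S t s k e : ℕ}
    (he : 1 ≤ e) (f : MvPolynomial (Fin n) F) (h0 : f ≠ 0)
    (hf : Alg k (Lev s k e t) f) (hS : ST (t + 1) s k e ≤ S) :
    aeval (bX F n S (RR (t + 1) k e)) f ≠ 0 :=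
  hit_step t (hit_lev t) s k e he f h0 hf hS

/-- The explicit test points. -/
theorem hit_grid {F : Type u} [Field F] [CharZero F] {n S t s k e N : ℕ}
    (he : 1 ≤ e) (f : MvPolynomial (Fin n) F) (h0 : f ≠ 0)
    (hf : Alg k (Lev s k e t) f) (hS : ST (t + 1) s k e ≤ S) (hN : f.totalDegree ≤ N) :
    ∃ (x : ℕ) (a w : Fin (RR (t + 1) k e) → ℕ), x ≤ N * (S - 1) ∧
      (∀ j, a j ≤ N * (n - 1)) ∧ (∀ j, w j ≤ N) ∧
      eval (bpt n S (x : F) (fun j => (a j : F)) (fun j => (w j : F))) f ≠ 0 :=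
  grid f hN (hit_alg he f h0 hf hS)

end DH.B
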